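import Pool.Agent.H65.CRZ.FM0

/-!
# Critical zeros: lemmas for the assembly for the ray class characters
-/

set_option autoImplicit false

open NumberField NumberField.InfinitePlace Complex Filter Topology MeasureTheory Set

namespace Pool.Agent.H65.CRZ

open Pool.Agent.H28.RC Pool.Agent.H25.HK Pool.Agent.H37.CV

theorem fsum_coe {α : Type} (s : Set α) [Fintype s] (g : α → ℝ) :
    ∑ᶠ x ∈ s, g x = ∑ i : s, g i := by
  rw [← finsum_set_coe_eq_finsum_mem, finsum_eq_sum_of_fintype]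

/-- the open set -/
def UU (b T : ℝ) : Set ℂ := {s : ℂ | 1 / 4 < s.re ∧ s.re < 2 * b ∧ |s.im| < T}

theorem UU_open (b T : ℝ) : IsOpen (UU b T) := by
  have h1 : IsOpen {s : ℂ | 1 / 4 < s.re} := isOpen_lt continuous_const Complex.continuous_re
  have h2 : IsOpen {s : ℂ | s.re < 2 * b} := isOpen_lt Complex.continuous_re continuous_const
  have h3 : IsOpen {s : ℂ | |s.im| < T} := isOpen_lt Complex.continuous_im.abs continuous_const
  exact h1.inter (h2.inter h3)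

theorem UU_conn (b T : ℝ) : IsPreconnected (UU b T) := by
  have h1 : Convex ℝ {s : ℂ | 1 / 4 < s.re} := convex_halfSpace_re_gt (1 / 4)
  have h2 : Convex ℝ {s : ℂ | s.re < 2 * b} := convex_halfSpace_re_lt (2 * b)
  have h3 : Convex ℝ {s : ℂ | s.im < T} := convex_halfSpace_im_lt T
  have h4 : Convex ℝ {s : ℂ | -T < s.im} := convex_halfSpace_im_gt (-T)
  have h5 : UU b T = {s : ℂ | 1 / 4 < s.re} ∩ ({s : ℂ | s.re < 2 * b} ∩
      ({s : ℂ | s.im < T} ∩ {s : ℂ | -T < s.im})) := by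
    ext s
    simp only [UU, mem_setOf_eq, mem_inter_iff, abs_lt]
    tauto
  rw [h5]
  exact (h1.inter (h2.inter (h3.inter h4))).isPreconnected

theorem ml_diff {K : Type} [Field K] [NumberField K] (M σ₀ : ℝ) (ψ : Ideal (𝓞 K) → ℂ) :
    Differentiable ℂ (ml M σ₀ ψ) := by
  intro s
  unfold ml
  refine DifferentiableAt.fun_sum fun S _ => ?_
  have h0 : 0 < nS (np (K := K)) S := by
    unfold nS
    refine Finset.prod_pos fun P _ => ?_
    have h1 : P.1 ≠ ⊥ := P.2.2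
    have h2 : Ideal.absNorm P.1 ≠ 0 := fun h => h1 (Ideal.absNorm_eq_zero_iff.1 h)
    show (0 : ℝ) < (Ideal.absNorm P.1 : ℝ)
    exact_mod_cast Nat.pos_of_ne_zero h2
  have h1 : ((nS (np (K := K)) S : ℝ) : ℂ) ≠ 0 := by exact_mod_cast h0.ne'
  refine DifferentiableAt.const_mul ?_ _
  refine DifferentiableAt.const_cpow ?_ (Or.inl h1)
  fun_prop

theorem sinh_part {b a D : ℝ} (hD : 0 < D) (ha : 0 ≤ a) (hab : a ≤ b) :
    (b - a) * Real.sinh (Real.pi * (b - a) / D) ≤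
      D * (b / D * Real.sinh (Real.pi * (b / D))) ∧
    Real.cosh (Real.pi * (b - a) / D) ≤ Real.cosh (Real.pi * (b / D)) := by
  have hpi := Real.pi_pos
  have h1 : Real.pi * (b - a) / D ≤ Real.pi * (b / D) := by
    rw [mul_div_assoc]
    have : (b - a) / D ≤ b / D := by gcongr; linarith
    exact mul_le_mul_of_nonneg_left this hpi.le
  have h0 : 0 ≤ Real.pi * (b - a) / D := by
    have : 0 ≤ b - a := by linarith
    positivity
  constructor
  · have h2 : D * (b / D * Real.sinh (Real.pi * (b / D))) = b * Real.sinh (Real.pi * (b / D)) := by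
      field_simp
    rw [h2]
    refine mul_le_mul (by linarith) (Real.sinh_le_sinh.2 h1) (Real.sinh_nonneg_iff.2 h0) (by linarith)
  · rw [Real.cosh_le_cosh, abs_of_nonneg h0, abs_of_nonneg (h0.trans h1)]
    exact h1


theorem choose_b (C₁ : ℝ) : ∃ b₁ : ℝ, 2 ≤ b₁ ∧ C₁ * (2 : ℝ) ^ (-b₁) ≤ 1 / 100 := by
  have h1 : Tendsto (fun b : ℝ => C₁ * (2 : ℝ) ^ (-b)) atTop (𝓝 (C₁ * 0)) := by
    refine Tendsto.const_mul _ ?_
    have h2 : Tendsto (fun b : ℝ => (2⁻¹ : ℝ) ^ b) atTop (𝓝 0) :=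
      tendsto_rpow_atTop_of_base_lt_one _ (by norm_num) (by norm_num)
    refine h2.congr fun b => ?_
    rw [Real.inv_rpow (by norm_num), Real.rpow_neg (by norm_num)]
  rw [mul_zero] at h1
  have h2 := (h1.eventually (gt_mem_nhds (show (0 : ℝ) < 1 / 100 by norm_num))).and
    (eventually_ge_atTop (2 : ℝ))
  obtain ⟨b₁, h3, h4⟩ := h2.exists
  exact ⟨b₁, h4, h3.le⟩

/-- the bound of all zeros -/
theorem num_all {T lA lq ε ε₀ C₅ X : ℝ} (hT : 0 < T) (hε : 0 < ε) (hε1 : ε ≤ 1 / 10)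
    (hεε : ε ≤ ε₀) (hlA : 0 ≤ lA) (hlq : 0 ≤ lq) (h5 : 4 * Real.pi * C₅ ≤ ε * T)
    (hlog : lA ≤ (1 + ε / 4) * lq) (hX : X ≤ T / Real.pi * lA + C₅ * lA) :
    X ≤ (1 + ε₀) * (T / Real.pi * lq) := by
  have hpi := Real.pi_pos
  obtain ⟨t, ht⟩ : ∃ t : ℝ, t = T / Real.pi := ⟨_, rfl⟩
  have ht0 : 0 < t := by rw [ht]; positivity
  have h4 : C₅ ≤ ε / 4 * t := by
    have : ε / 4 * t = ε * T / (4 * Real.pi) := by rw [ht]; ring
    rw [this, le_div_iff₀ (by positivity)]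
    linarith
  rw [← ht] at hX ⊢
  have h1 : X ≤ (1 + ε / 4) * t * lA := by
    have := mul_le_mul_of_nonneg_right h4 hlA
    nlinarith
  have h2 : (1 + ε / 4) * t * lA ≤ (1 + ε / 4) * t * ((1 + ε / 4) * lq) :=
    mul_le_mul_of_nonneg_left hlog (by positivity)
  have h3 : (1 + ε / 4) * t * ((1 + ε / 4) * lq) = (1 + ε / 4) ^ 2 * (t * lq) := by ring
  have h6 : (1 + ε / 4) ^ 2 * (t * lq) ≤ (1 + ε₀) * (t * lq) := by
    refine mul_le_mul_of_nonneg_right ?_ (by positivity)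
    nlinarith
  linarith

/-- the bound of the simple zeros -/
theorem num_simple {T lA lq ε ε₀ C₄ S n l : ℝ} (hT : 0 < T) (hε : 0 < ε) (hε1 : ε ≤ 1 / 10)
    (hεε : ε ≤ ε₀) (hlA : 0 ≤ lA) (hlq : 0 ≤ lq) (hn : 0 < n)
    (h4 : 8 * Real.pi * C₄ ≤ ε * T) (hlog : (1 - ε / 4) * lq ≤ lA) (hl : l ≤ 8187 / 10000)
    (hS : S ≤ 2 * lA / 5 * (T * (l / Real.pi + ε / (8 * Real.pi))) * n) :
    (345 / 1000 - ε₀) * (T / Real.pi * lq) * n ≤ n * ((T / Real.pi - C₄) * lA) - 2 * S := by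
  have hpi := Real.pi_pos
  obtain ⟨t, ht⟩ : ∃ t : ℝ, t = T / Real.pi := ⟨_, rfl⟩
  have ht0 : 0 < t := by rw [ht]; positivity
  have h5 : C₄ ≤ ε / 8 * t := by
    have : ε / 8 * t = ε * T / (8 * Real.pi) := by rw [ht]; ring
    rw [this, le_div_iff₀ (by positivity)]
    linarith
  have hS1 : 2 * lA / 5 * (T * (l / Real.pi + ε / (8 * Real.pi))) * n =
      2 / 5 * (l + ε / 8) * (n * (t * lA)) := by
    rw [ht]
    field_simp
  rw [hS1] at hS
  rw [← ht]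
  obtain ⟨w, hw⟩ : ∃ w : ℝ, w = n * (t * lA) := ⟨_, rfl⟩
  have hw0 : 0 ≤ w := by rw [hw]; positivity
  rw [← hw] at hS
  have h6 : 2 * S ≤ 4 / 5 * (8187 / 10000 + ε / 8) * w := by
    have : 2 / 5 * (l + ε / 8) * w ≤ 2 / 5 * (8187 / 10000 + ε / 8) * w := by gcongr
    linarith
  have h7 : n * ((t - C₄) * lA) = w - C₄ * (n * lA) := by rw [hw]; ring
  have h8 : C₄ * (n * lA) ≤ ε / 8 * w := by
    have : ε / 8 * w = ε / 8 * t * (n * lA) := by rw [hw]; ring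
    rw [this]
    exact mul_le_mul_of_nonneg_right h5 (by positivity)
  have h9 : (345 / 1000 - ε / 4) * w ≤ n * ((t - C₄) * lA) - 2 * S := by
    rw [h7]
    nlinarith
  refine le_trans ?_ h9
  have h10 : (345 / 1000 - ε₀) ≤ (345 / 1000 - ε / 4) * (1 - ε / 4) := by nlinarith
  have h11 : 0 ≤ t * lq * n := by positivity
  have h12 : (345 / 1000 - ε₀) * (t * lq) * n = (345 / 1000 - ε₀) * (t * lq * n) := by ring
  rw [h12]
  refine (mul_le_mul_of_nonneg_right h10 h11).trans ?_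
  have h13 : (345 / 1000 - ε / 4) * (1 - ε / 4) * (t * lq * n) =
      (345 / 1000 - ε / 4) * (n * (t * ((1 - ε / 4) * lq))) := by ring
  rw [h13, hw]
  have : 0 ≤ 345 / 1000 - ε / 4 := by linarith
  gcongr

/-- the right side of Carleman's inequality -/
theorem num_car {b a D C₂ C₃ T l S n L P : ℝ} (hD : 0 < D) (ha : 0 ≤ a) (hab : a ≤ b)
    (hC₂ : 0 ≤ C₂) (hC₃ : 1 ≤ C₃) (hT : 0 < T) (hn : 0 < n) (hL : 0 < L)
    (haL : 1 / 2 - a = 5 / 4 / L)
    (hP : P = l / Real.pi + b / D * Real.sinh (Real.pi * (b / D)) * Real.log C₃ +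
      (D + 2) * Real.cosh (Real.pi * (b / D)) * (C₂ * (2 : ℝ) ^ (-b)))
    (h : 4 * D * (1 / 2 - a) * S ≤ (T + D) * (D / Real.pi * l +
      (b - a) * Real.sinh (Real.pi * (b - a) / D) * Real.log C₃ +
      (D + 2) * D * Real.cosh (Real.pi * (b - a) / D) * (C₂ * (2 : ℝ) ^ (-b))) * n) :
    S ≤ L / 5 * ((T + D) * P) * n := by
  have hPD : D / Real.pi * l +
      (b - a) * Real.sinh (Real.pi * (b - a) / D) * Real.log C₃ +
      (D + 2) * D * Real.cosh (Real.pi * (b - a) / D) * (C₂ * (2 : ℝ) ^ (-b)) ≤ D * P := by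
    obtain ⟨h1, h2⟩ := sinh_part hD ha hab
    have h3 : 0 ≤ Real.log C₃ := Real.log_nonneg hC₃
    have h4 := mul_le_mul_of_nonneg_right h1 h3
    have h5 : 0 ≤ (D + 2) * D * (C₂ * (2 : ℝ) ^ (-b)) := by
      have : 0 ≤ (2 : ℝ) ^ (-b) := by positivity
      positivity
    have h6 := mul_le_mul_of_nonneg_right h2 h5
    have h7 : D * P = D / Real.pi * l +
        D * (b / D * Real.sinh (Real.pi * (b / D))) * Real.log C₃ +
        Real.cosh (Real.pi * (b / D)) * ((D + 2) * D * (C₂ * (2 : ℝ) ^ (-b))) := by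
      rw [hP]
      ring
    rw [h7]
    linarith
  have h1 : 4 * D * (1 / 2 - a) * S ≤ (T + D) * (D * P) * n := by
    refine h.trans ?_
    refine mul_le_mul_of_nonneg_right ?_ hn.le
    exact mul_le_mul_of_nonneg_left hPD (by linarith)
  rw [haL] at h1
  have h3 : 4 * D * (5 / 4 / L) * S = D * (5 / L * S) := by ring
  have h4 : (T + D) * (D * P) * n = D * ((T + D) * P * n) := by ring
  rw [h3, h4] at h1
  have h5 := le_of_mul_le_mul_left h1 hD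
  have h7 : S = L / 5 * (5 / L * S) := by field_simp
  rw [h7, mul_assoc (L / 5)]
  exact mul_le_mul_of_nonneg_left h5 (by positivity)

theorem mem_UU {b T D T' : ℝ} (hb : 1 < b) (hD : 0 < D) (hT : 0 < T) (hT' : T' = T + D + 1)
    {s : ℂ} (h1 : 1 / 4 < s.re) (h2 : s.re ≤ b) (h3 : -D ≤ s.im) (h4 : s.im ≤ T + D) :
    s ∈ UU b T' := by
  refine ⟨h1, by linarith, ?_⟩
  rw [abs_lt, hT']
  constructor <;> linarith

/-- one character -/
theorem one_chi {K : Type} [Field K] [NumberField K] (hZM : T_ZM) {A b b₁ T T' D : ℝ} {q : ℕ}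
    (hA : A = cA K (qi K q)) (hb : 1 < b) (hbb : b₁ ≤ b) (hD : 0 < D) (hT : 0 < T)
    (hT' : T' = T + D + 1) (χ : RCC K)
    (hV0 : ∀ s : ℂ, 1 / 8 < s.re → s.re < 2 * b → |s.im| < T' →
      DifferentiableAt ℂ (VZ (26 / 25) A (Zx χ)) s)
    (hne : fx (26 / 25) (5 / 4) (1 / 1000) q χ ((b : ℂ) + (0 : ℝ) * I) ≠ 0)
    (hfin : {ρ : ℂ | 1 / 2 ≤ ρ.re ∧ ρ.re < b ∧ ρ ∈ St T ∧
      fx (26 / 25) (5 / 4) (1 / 1000) q χ ρ = 0}.Finite) :
    zc (VZ (26 / 25) A (Zx χ)) {ρ : ℂ | 1 / 2 ≤ ρ.re ∧ ρ.re < b₁ ∧ ρ ∈ St T} ≤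
      zc (fx (26 / 25) (5 / 4) (1 / 1000) q χ) {ρ : ℂ | 1 / 2 ≤ ρ.re ∧ ρ.re < b ∧ ρ ∈ St T} := by
  have hU : ∀ s ∈ {ρ : ℂ | 1 / 2 ≤ ρ.re ∧ ρ.re < b ∧ ρ ∈ St T}, s ∈ UU b T' := by
    rintro s ⟨h3, h4, h5, h6⟩
    exact mem_UU hb hD hT hT' (by linarith) h4.le (by linarith) (by linarith)
  have hVan : AnalyticOnNhd ℂ (VZ (26 / 25) A (Zx χ)) (UU b T') := by
    apply DifferentiableOn.analyticOnNhd _ (UU_open b T')
    intro s hs
    exact (hV0 s (by linarith [hs.1]) hs.2.1 hs.2.2).differentiableWithinAt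
  have hMan : AnalyticOnNhd ℂ (ml (Mq (1 / 1000) q) (sg0 K (5 / 4) q) χ.ψ) (UU b T') := by
    apply DifferentiableOn.analyticOnNhd _ (UU_open b T')
    intro s _
    exact (ml_diff _ _ _ s).differentiableWithinAt
  have hbU : ((b : ℂ) + (0 : ℝ) * I) ∈ UU b T' := by
    refine mem_UU hb hD hT hT' ?_ ?_ ?_ ?_
    · simp; linarith
    · simp
    · simp; linarith
    · simp; linarith
  have h4 : (fun s => VZ (26 / 25) A (Zx χ) s *
      ml (Mq (1 / 1000) q) (sg0 K (5 / 4) q) χ.ψ s) = fx (26 / 25) (5 / 4) (1 / 1000) q χ := by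
    funext s
    unfold fx
    rw [← hA]
  have hne1 : VZ (26 / 25) A (Zx χ) ((b : ℂ) + (0 : ℝ) * I) ≠ 0 ∧
      ml (Mq (1 / 1000) q) (sg0 K (5 / 4) q) χ.ψ ((b : ℂ) + (0 : ℝ) * I) ≠ 0 := by
    rw [← h4] at hne
    exact mul_ne_zero_iff.1 hne
  have h3 := (hZM.1 (VZ (26 / 25) A (Zx χ)) (ml (Mq (1 / 1000) q) (sg0 K (5 / 4) q) χ.ψ)
    {ρ : ℂ | 1 / 2 ≤ ρ.re ∧ ρ.re < b₁ ∧ ρ ∈ St T} {ρ : ℂ | 1 / 2 ≤ ρ.re ∧ ρ.re < b ∧ ρ ∈ St T}
    (by
      rintro s ⟨h4, h5, h6⟩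
      exact ⟨h4, lt_of_lt_of_le h5 hbb, h6⟩)
    (by
      intro s hs
      exact ⟨hVan s (hU s hs), hMan s (hU s hs),
        Pool.Agent.H18.PZ.order_ne_top (UU_conn b T') hVan hbU hne1.1 (hU s hs),
        Pool.Agent.H18.PZ.order_ne_top (UU_conn b T') hMan hbU hne1.2 (hU s hs)⟩)
    (by
      refine hfin.subset ?_
      rintro s ⟨⟨h5, h6, h7⟩, h8⟩
      refine ⟨h5, h6, h7, ?_⟩
      rw [← h4]
      exact h8)).2.1
  rw [h4] at h3
  exact h3

end Pool.Agent.H65.CRZ
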