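import Pool.Agent.H65.CRZ.Defs

/-!
# Zeros on the critical line: targets, part L (Levinson's method, Carleman's formula)
-/

set_option autoImplicit false

open Complex Set MeasureTheory

namespace Pool.Agent.H65.CRZ

/-! ### Tools -/

/-- (RP) rules for `rp`. -/
def T_RP : Prop :=
  (∀ (f g : ℂ → ℂ) (a b t₁ t₂ : ℝ), a ≤ b → t₁ ≤ t₂ →
    (∀ s : ℂ, (a ≤ s.re ∧ s.re ≤ b ∧ (s.im = t₁ ∨ s.im = t₂)) ∨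
      (s.re = b ∧ t₁ ≤ s.im ∧ s.im ≤ t₂) →
      AnalyticAt ℂ f s ∧ AnalyticAt ℂ g s ∧ f s ≠ 0 ∧ g s ≠ 0) →
    rp (fun s => f s * g s) a b t₁ t₂ = rp f a b t₁ t₂ + rp g a b t₁ t₂) ∧
  (∀ (f : ℂ → ℂ) (a b t₁ t₂ C : ℝ), a ≤ b → t₁ ≤ t₂ →
    (∀ s : ℂ, (a ≤ s.re ∧ s.re ≤ b ∧ (s.im = t₁ ∨ s.im = t₂)) ∨
      (s.re = b ∧ t₁ ≤ s.im ∧ s.im ≤ t₂) → ‖ld f s‖ ≤ C) →
    |rp f a b t₁ t₂| ≤ C * (2 * (b - a) + (t₂ - t₁))) ∧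
  (∀ A a b t₁ t₂ : ℝ, 0 < A → rp (fun s => (A : ℂ) ^ s) a b t₁ t₂ = (t₂ - t₁) * Real.log A) ∧
  ∀ (f : ℂ → ℂ) (c : ℂ) (a b t₁ t₂ : ℝ), c ≠ 0 →
    rp (fun s => c * f s) a b t₁ t₂ = rp f a b t₁ t₂

/-- (ZM) rules for the number of the zeros. -/
def T_ZM : Prop :=
  (∀ (f g : ℂ → ℂ) (S T : Set ℂ), S ⊆ T →
    (∀ s ∈ T, AnalyticAt ℂ f s ∧ AnalyticAt ℂ g s ∧ analyticOrderAt f s ≠ ⊤ ∧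
      analyticOrderAt g s ≠ ⊤) →
    {s : ℂ | s ∈ T ∧ f s * g s = 0}.Finite →
    0 ≤ zc f S ∧ zc f S ≤ zc (fun s => f s * g s) T ∧
      ((∀ s ∈ S, g s ≠ 0) → zc (fun s => f s * g s) S = zc f S)) ∧
  ∀ (f : ℂ → ℂ) (T : ℝ), (∀ s ∈ St T, AnalyticAt ℂ f s ∧ analyticOrderAt f s ≠ ⊤) →
    {s : ℂ | s ∈ St T ∧ f s = 0}.Finite → (SZ f 0 T).Finite ∧ ((SZ f 0 T).ncard : ℝ) ≤ zc f (St T)

/-! ### Carleman's formula -/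

/-- (CA) Carleman's formula for a rectangle inside of an open set. -/
def T_CA : Prop :=
  ∀ (f : ℂ → ℂ) (a b T₁ T₂ e : ℝ) (U : Set ℂ), a < b → T₁ < T₂ → IsOpen U → IsPreconnected U →
    (∀ s ∈ U, DifferentiableAt ℂ f s) →
    (∀ s : ℂ, a ≤ s.re → s.re ≤ b → T₁ ≤ s.im → s.im ≤ T₂ → s ∈ U) →
    (∀ t ∈ Icc T₁ T₂, f (a + t * I) ≠ 0) →
    (∀ x ∈ Icc a b, f (x + T₁ * I) ≠ 0 ∧ f (x + T₂ * I) ≠ 0) →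
    (∀ t ∈ Icc T₁ T₂, f (b + t * I) ≠ 0 ∧ |Real.log ‖f (b + t * I)‖| ≤ e ∧
      ‖deriv f (b + t * I)‖ ≤ e * ‖f (b + t * I)‖) →
    ∃ Z : Finset ℂ, (∀ z : ℂ, z ∈ Z ↔ a < z.re ∧ z.re < b ∧ T₁ < z.im ∧ z.im < T₂ ∧ f z = 0) ∧
      |2 * Real.pi * ∑ z ∈ Z, (analyticOrderNatAt f z : ℝ) *
            ((T₂ - T₁) / Real.pi * Real.sinh (Real.pi * (z.re - a) / (T₂ - T₁))) *
            Real.sin (Real.pi * (z.im - T₁) / (T₂ - T₁)) -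
          (∫ t in T₁..T₂, Real.log ‖f (a + t * I)‖ * Real.sin (Real.pi * (t - T₁) / (T₂ - T₁))) -
          ∫ x in a..b, (Real.log ‖f (x + T₁ * I)‖ + Real.log ‖f (x + T₂ * I)‖) *
            Real.sinh (Real.pi * (x - a) / (T₂ - T₁))| ≤
        (T₂ - T₁ + 2) * (T₂ - T₁) * Real.cosh (Real.pi * (b - a) / (T₂ - T₁)) * e

/-- (CI) upper bound of the zeros from squares, without conditions on the boundary. -/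
def T_CI : Prop :=
  ∀ (f : ℂ → ℂ) (a b T₁ D e Q₁ Q₂ : ℝ) (U : Set ℂ) (S : Finset ℂ), a < b → 0 < D → 0 < Q₁ →
    0 < Q₂ → IsOpen U → IsPreconnected U → (∀ s ∈ U, DifferentiableAt ℂ f s) →
    (∀ s : ℂ, a ≤ s.re → s.re ≤ b → T₁ ≤ s.im → s.im ≤ T₁ + D → s ∈ U) →
    (∀ t ∈ Icc T₁ (T₁ + D), f (b + t * I) ≠ 0 ∧ |Real.log ‖f (b + t * I)‖| ≤ e ∧
      ‖deriv f (b + t * I)‖ ≤ e * ‖f (b + t * I)‖) →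
    (∀ ρ ∈ S, a ≤ ρ.re ∧ ρ.re < b ∧ T₁ < ρ.im ∧ ρ.im < T₁ + D) →
    2 * D * ∑ ρ ∈ S, (analyticOrderNatAt f ρ : ℝ) *
        Real.sinh (Real.pi * (ρ.re - a) / D) * Real.sin (Real.pi * (ρ.im - T₁) / D) ≤
      1 / 2 * (∫ t in T₁..(T₁ + D), (‖f (a + t * I)‖ ^ 2 / Q₁ - 1 + Real.log Q₁) *
          Real.sin (Real.pi * (t - T₁) / D)) +
        1 / 2 * (∫ x in a..b, (‖f (x + T₁ * I)‖ ^ 2 / Q₂ + ‖f (x + ((T₁ + D : ℝ) : ℂ) * I)‖ ^ 2 / Q₂ -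
          2 + 2 * Real.log Q₂) * Real.sinh (Real.pi * (x - a) / D)) +
        (D + 2) * D * Real.cosh (Real.pi * (b - a) / D) * e

/-- (CM) upper bound of the zeros of a family from the mean squares. -/
def T_CM : Prop :=
  ∀ (ι : Type) [Fintype ι] (f : ι → ℂ → ℂ) (a β b T D e Q₁ Q₂ : ℝ) (U : Set ℂ), a < β → β < b →
    0 < T → 0 < D → 1 ≤ Q₁ → 1 ≤ Q₂ → IsOpen U → IsPreconnected U →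
    (∀ i, ∀ s ∈ U, DifferentiableAt ℂ (f i) s) →
    (∀ s : ℂ, a ≤ s.re → s.re ≤ b → -D ≤ s.im → s.im ≤ T + D → s ∈ U) →
    (∀ i, ∀ t ∈ Icc (-D) (T + D), f i (b + t * I) ≠ 0 ∧ |Real.log ‖f i (b + t * I)‖| ≤ e ∧
      ‖deriv (f i) (b + t * I)‖ ≤ e * ‖f i (b + t * I)‖) →
    (∀ t ∈ Icc (-D) (T + D), ∑ i, ‖f i (a + t * I)‖ ^ 2 ≤ Q₁ * Fintype.card ι) →
    (∀ t ∈ Icc (-D) (T + D), ∀ x ∈ Icc a b, ∑ i, ‖f i (x + t * I)‖ ^ 2 ≤ Q₂ * Fintype.card ι) →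
    (∀ i, {ρ : ℂ | β ≤ ρ.re ∧ ρ.re < b ∧ ρ ∈ St T ∧ f i ρ = 0}.Finite) ∧
    4 * D * (β - a) * ∑ i, zc (f i) {ρ : ℂ | β ≤ ρ.re ∧ ρ.re < b ∧ ρ ∈ St T} ≤
      (T + D) * (D / Real.pi * Real.log Q₁ +
        (b - a) * Real.sinh (Real.pi * (b - a) / D) * Real.log Q₂ +
        (D + 2) * D * Real.cosh (Real.pi * (b - a) / D) * e) * Fintype.card ι

/-! ### The argument on the critical line -/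

/-- (CR) the argument of `x - i μ x'` between the zeros of `x`. -/
def T_CR : Prop :=
  ∀ (x x₁ x₂ k : ℝ → ℝ) (μ a b : ℝ), 0 < μ → a < b → (∀ t, HasDerivAt x (x₁ t) t) →
    (∀ t, HasDerivAt x₁ (x₂ t) t) → Continuous x₂ → {t ∈ Icc a b | x t = 0}.Finite →
    ContinuousOn k (Icc a b) →
    (∀ t ∈ Icc a b, x t ≠ 0 → k t * (x t ^ 2 + μ ^ 2 * x₁ t ^ 2) =
      μ * (x₁ t ^ 2 - x t * x₂ t)) →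
    ∫ t in a..b, k t ≤ Real.pi * ({t ∈ Ioo a b | x t = 0}.ncard + 1)

/-- (AG) the argument principle, with zeros on the left side. -/
def T_AG : Prop :=
  ∀ (G : ℂ → ℂ) (a b t₁ t₂ : ℝ) (U : Set ℂ), a < b → t₁ < t₂ → IsOpen U → IsPreconnected U →
    (∀ s ∈ U, DifferentiableAt ℂ G s) →
    (∀ s : ℂ, a ≤ s.re → s.re ≤ b → t₁ ≤ s.im → s.im ≤ t₂ → s ∈ U) →
    (∀ x ∈ Icc a b, G (x + t₁ * I) ≠ 0 ∧ G (x + t₂ * I) ≠ 0) →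
    (∀ t ∈ Icc t₁ t₂, G (b + t * I) ≠ 0) →
    {ρ : ℂ | a ≤ ρ.re ∧ ρ.re ≤ b ∧ t₁ ≤ ρ.im ∧ ρ.im ≤ t₂ ∧ G ρ = 0}.Finite ∧
    ∃ k : ℝ → ℝ, ContinuousOn k (Icc t₁ t₂) ∧
      (∀ t ∈ Icc t₁ t₂, G (a + t * I) ≠ 0 → k t = (ld G (a + t * I)).re) ∧
      (∫ t in t₁..t₂, k t) = rp G a b t₁ t₂ -
        2 * Real.pi * zc G {ρ : ℂ | a < ρ.re ∧ ρ.re < b ∧ t₁ < ρ.im ∧ ρ.im < t₂} -
        Real.pi * zc G {ρ : ℂ | ρ.re = a ∧ t₁ < ρ.im ∧ ρ.im < t₂}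

/-- (N1) the number of the simple zeros on the critical line. -/
def T_N1 : Prop :=
  ∀ (F : ℂ → ℂ) (μ b t₁ t₂ : ℝ), 0 < μ → 1 / 2 < b → t₁ < t₂ → Differentiable ℂ F →
    (∀ t : ℝ, (F (1 / 2 + t * I)).im = 0) →
    (∀ x ∈ Icc (1 / 2) b, F (x + t₁ * I) + μ * deriv F (x + t₁ * I) ≠ 0 ∧
      F (x + t₂ * I) + μ * deriv F (x + t₂ * I) ≠ 0) →
    (∀ t ∈ Icc t₁ t₂, F (b + t * I) + μ * deriv F (b + t * I) ≠ 0) →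
    (SZ F t₁ t₂).Finite ∧
    1 / Real.pi * rp (fun s => F s + μ * deriv F s) (1 / 2) b t₁ t₂ -
        2 * zc (fun s => F s + μ * deriv F s)
          {ρ : ℂ | 1 / 2 ≤ ρ.re ∧ ρ.re < b ∧ t₁ < ρ.im ∧ ρ.im < t₂} - 1 ≤ (SZ F t₁ t₂).ncard

/-- (N2) the number of all zeros. -/
def T_N2 : Prop :=
  ∀ (F : ℂ → ℂ) (b t₁ t₂ : ℝ), 1 / 2 < b → t₁ < t₂ → Differentiable ℂ F →
    (∀ t : ℝ, (F (1 / 2 + t * I)).im = 0) →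
    (∀ x ∈ Icc (1 / 2) b, F (x + t₁ * I) ≠ 0 ∧ F (x + t₂ * I) ≠ 0) →
    (∀ t ∈ Icc t₁ t₂, F (b + t * I) ≠ 0) →
    2 * zc F {ρ : ℂ | 1 / 2 < ρ.re ∧ ρ.re < b ∧ t₁ < ρ.im ∧ ρ.im < t₂} +
      zc F {ρ : ℂ | ρ.re = 1 / 2 ∧ t₁ < ρ.im ∧ ρ.im < t₂} = 1 / Real.pi * rp F (1 / 2) b t₁ t₂

/-- (JN) Jensen's bound for the number of zeros in a disc. -/
def T_JN : Prop :=
  ∀ (f : ℂ → ℂ) (c : ℂ) (r R M : ℝ) (U : Set ℂ) (S : Finset ℂ), 0 < r → r < R → IsOpen U →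
    Metric.closedBall c R ⊆ U → (∀ s ∈ U, DifferentiableAt ℂ f s) →
    (∀ s ∈ Metric.closedBall c R, ‖f s‖ ≤ M) → f c ≠ 0 →
    (∀ z ∈ S, z ∈ Metric.closedBall c r ∧ f z = 0) →
    (S.card : ℝ) * Real.log (R / r) ≤ Real.log (M / ‖f c‖)

/-- (BK) the argument on a horizontal segment. -/
def T_BK : Prop :=
  ∀ (f : ℂ → ℂ) (c h r R M : ℝ) (U : Set ℂ), 0 < r → r < R → IsOpen U →
    Metric.closedBall (c + h * I : ℂ) R ⊆ U → (∀ s ∈ U, DifferentiableAt ℂ f s) →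
    (∀ s ∈ Metric.closedBall (c + h * I : ℂ) R, ‖f s‖ ≤ M) → 1 / 2 ≤ (f (c + h * I)).re →
    (∀ x ∈ Icc (c - r) c, f (x + h * I) ≠ 0) →
    |∫ x in (c - r)..c, (ld f (x + h * I)).im| ≤
      Real.pi * (Real.log (2 * M) / Real.log (R / r) + 1)

/-! ### Functions with a functional equation -/

/-- (G2) the logarithmic derivative of the Gamma function on compact sets. -/
def T_G2 : Prop :=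
  (∀ s : ℂ, 0 < s.re → DifferentiableAt ℂ Gamma s ∧ Gamma s ≠ 0 ∧
    DifferentiableAt ℂ (ld Gamma) s) ∧
  ∀ b T : ℝ, ∃ C : ℝ, 0 < C ∧ ∀ s : ℂ, 1 / 8 ≤ s.re → s.re ≤ b → |s.im| ≤ T →
    ‖ld Gamma s‖ ≤ C ∧ ‖deriv (ld Gamma) s‖ ≤ C

/-- (V0) the auxiliary function of an `L`-function. -/
def T_V0 : Prop :=
  ∀ C lam b : ℝ, 1 ≤ C → 1 < lam → lam < 2 → 2 ≤ b → C * (2 : ℝ) ^ (-b) ≤ 1 / 100 →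
    ∃ C' : ℝ, 0 < C' ∧ ∀ T : ℝ, 0 < T → ∃ A₀ : ℝ, 2 ≤ A₀ ∧ ∀ A : ℝ, A₀ ≤ A → ∀ Z : ℂ → ℂ,
      LFn C A Z → ∀ s : ℂ, 1 / 8 < s.re → s.re < 2 * b → |s.im| < T →
        DifferentiableAt ℂ (cof lam A) s ∧ DifferentiableAt ℂ (VZ lam A Z) s ∧
        ((2 * Real.log A / lam : ℝ) : ℂ) + ld Gamma s ≠ 0 ∧ ‖cof lam A s‖ ≤ 1 ∧
        ‖Z s‖ ≤ A ^ C' ∧ ‖VZ lam A Z s‖ ≤ A ^ C' ∧
        (b ≤ s.re → ‖Z s - 1‖ ≤ 1 / 4 ∧ ‖deriv Z s‖ ≤ 1 ∧ ‖VZ lam A Z s - 1‖ ≤ 1 / 4 ∧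
          ‖deriv (VZ lam A Z) s‖ ≤ 1)

/-- (LV) Levinson's inequality. -/
def T_LV : Prop :=
  ∀ C lam b : ℝ, 1 ≤ C → 1 < lam → lam < 2 → 2 ≤ b → C * (2 : ℝ) ^ (-b) ≤ 1 / 100 →
    ∃ C' : ℝ, 0 < C' ∧ ∀ T : ℝ, 0 < T → ∃ A₀ : ℝ, 2 ≤ A₀ ∧ ∀ A : ℝ, A₀ ≤ A → ∀ Z : ℂ → ℂ,
      LFn C A Z → (SZ Z 0 T).Finite ∧
        T / Real.pi * Real.log A - C' * Real.log A -
          2 * zc (VZ lam A Z) {ρ : ℂ | 1 / 2 ≤ ρ.re ∧ ρ.re < b ∧ ρ ∈ St T} ≤ (SZ Z 0 T).ncard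

/-- (SY) the symmetry of the zeros. -/
def T_SY : Prop :=
  ∀ C A b T : ℝ, 0 < A → 2 ≤ b → C * (2 : ℝ) ^ (-b) ≤ 1 / 100 → ∀ Z : ℂ → ℂ, LFn C A Z →
    {ρ : ℂ | ρ ∈ St T ∧ Z ρ = 0}.Finite ∧ (∀ ρ ∈ St T, Z ρ = 0 → 1 - b < ρ.re ∧ ρ.re < b) ∧
    zc Z (St T) = 2 * zc Z {ρ : ℂ | 1 / 2 < ρ.re ∧ ρ.re < b ∧ ρ ∈ St T} +
      zc Z {ρ : ℂ | ρ.re = 1 / 2 ∧ ρ ∈ St T}

/-- (RV) upper bound for the number of zeros. -/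
def T_RV : Prop :=
  ∀ C b : ℝ, 1 ≤ C → 2 ≤ b → C * (2 : ℝ) ^ (-b) ≤ 1 / 100 →
    ∃ C' : ℝ, 0 < C' ∧ ∀ T : ℝ, 0 < T → ∃ A₀ : ℝ, 2 ≤ A₀ ∧ ∀ A : ℝ, A₀ ≤ A → ∀ Z : ℂ → ℂ,
      LFn C A Z → {ρ : ℂ | ρ ∈ St T ∧ Z ρ = 0}.Finite ∧
        zc Z (St T) ≤ T / Real.pi * Real.log A + C' * Real.log A

/-! ### Three lines -/

/-- (TL) the three lines theorem for families of functions. -/
def T_TL : Prop :=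
  ∀ p W : ℝ, 0 ≤ p → 0 < W → ∃ K : ℝ, 1 ≤ K ∧ ∀ (ι : Type) [Fintype ι] (f : ι → ℂ → ℂ)
    (a b t M : ℝ), a < b → b - a ≤ W →
    (∀ i, ∀ s : ℂ, a ≤ s.re → s.re ≤ b → DifferentiableAt ℂ (f i) s) →
    (∀ i, ∃ C B : ℝ, ∀ s : ℂ, a ≤ s.re → s.re ≤ b → ‖f i s‖ ≤ C * (1 + |s.im|) ^ B) →
    (∀ u : ℝ, ∑ i, ‖f i (a + u * I)‖ ^ 2 ≤ M * (1 + |u - t|) ^ p) →
    (∀ u : ℝ, ∑ i, ‖f i (b + u * I)‖ ^ 2 ≤ M * (1 + |u - t|) ^ p) →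
    ∀ σ : ℝ, a ≤ σ → σ ≤ b → ∑ i, ‖f i (σ + t * I)‖ ^ 2 ≤ K * M

end Pool.Agent.H65.CRZ
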