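import Pool.Agent.H65.CRZ.Defs2

/-!
# Zeros on the critical line: targets, part N (the mollified second moment with shifts)
-/

set_option autoImplicit false

open NumberField NumberField.InfinitePlace Complex Filter Topology MeasureTheory

namespace Pool.Agent.H65.CRZ

open Pool.Agent.H28.RC Pool.Agent.H25.HK Pool.Agent.H37.CV

/-! ### The Gamma function and the weights -/

/-- (G1) quotients of values of the Gamma function. -/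
def T_G1 : Prop :=
  ∀ b : ℝ, ∃ C B : ℝ, 0 < C ∧ 0 ≤ B ∧ ∀ s w : ℂ, 1 / 4 ≤ s.re → s.re ≤ 3 / 4 →
    -(1 / 8) ≤ w.re → w.re ≤ b →
    ‖Gamma (s + w)‖ ≤ C * (1 + |s.im|) ^ B * Real.exp (2 * |w.im|) * ‖Gamma s‖

/-- (G3) the Gamma factors of the dual term. -/
def T_G3 : Prop :=
  ∃ C B : ℝ, 0 < C ∧ 0 ≤ B ∧ ∀ (α β : ℂ) (u : ℝ), ‖α‖ ≤ 1 / 16 → ‖β‖ ≤ 1 / 16 →
    ‖Gamma (1 - (1 / 2 + α + u * I)) * Gamma (1 - (1 / 2 + β - u * I)) /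
      (Gamma (1 / 2 + α + u * I) * Gamma (1 / 2 + β - u * I)) - 1‖ ≤
        C * (‖α‖ + ‖β‖) * (1 + |u|) ^ B

/-- (VG) the weights. -/
def T_VG : Prop :=
  ∀ a : ℝ, 0 < a → ∃ C B : ℝ, 0 < C ∧ 0 ≤ B ∧ ∀ s₁ s₂ : ℂ, 1 / 4 ≤ s₁.re → s₁.re ≤ 3 / 4 →
    1 / 4 ≤ s₂.re → s₂.re ≤ 3 / 4 → ∀ x : ℝ, 0 < x →
      Integrable (fun t : ℝ => Gq s₁ s₂ (a + t * I) *
        (cexp (2 * (a + t * I) ^ 2) / (a + t * I)) * (x : ℂ) ^ (-(a + t * I))) ∧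
      Vg s₁ s₂ x = ((1 / (2 * Real.pi) : ℝ) : ℂ) * ∫ t : ℝ, Gq s₁ s₂ (a + t * I) *
        (cexp (2 * (a + t * I) ^ 2) / (a + t * I)) * (x : ℂ) ^ (-(a + t * I)) ∧
      ‖Vg s₁ s₂ x‖ ≤ C * (1 + |s₁.im| + |s₂.im|) ^ B * x ^ (-a)

/-- (AF) the approximate functional equation. -/
def T_AF : Prop :=
  ∀ (K : Type) [Field K] [NumberField K] [IsTotallyComplex K], nrComplexPlaces K = 1 →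
    ∀ (χ : RCC K), χ.f ≠ ⊤ → ∀ Z : ℂ → ℂ, IsEnt χ Z → ∀ s₁ s₂ : ℂ, 1 / 4 ≤ s₁.re →
      s₁.re ≤ 3 / 4 → 1 / 4 ≤ s₂.re → s₂.re ≤ 3 / 4 →
      Z s₁ * (starRingEnd ℂ) (Z ((starRingEnd ℂ) s₂)) = A2g (cA K χ.f ^ 2) s₁ s₂ χ.ψ +
        Xf (cA K χ.f) s₁ s₂ * A2g (cA K χ.f ^ 2) (1 - s₂) (1 - s₁) χ.ψ

/-- (SB) the trivial bound of the sum over the ideals. -/
def T_SB : Prop :=
  ∀ (K : Type) [Field K] [NumberField K] (δ a : ℝ), 0 < δ → δ ≤ 1 / 8 → 2 * δ ≤ a →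
    ∃ C B : ℝ, 0 < C ∧ 0 ≤ B ∧ ∀ (m : Ideal (𝓞 K)) (s₁ s₂ : ℂ) (Y : ℝ),
      |s₁.re - 1 / 2| ≤ δ → |s₂.re - 1 / 2| ≤ δ → 0 < Y →
      Summable (fun t : {t : Ideal (𝓞 K) // t ≠ ⊥ ∧ t ⊔ m = ⊤} =>
        ‖((nm t.1 : ℝ) : ℂ) ^ (-(s₁ + s₂)) * Vg s₁ s₂ (nm t.1 ^ 2 / Y)‖) ∧
      ‖Sg m s₁ s₂ Y‖ ≤ C * (1 + |s₁.im| + |s₂.im|) ^ B * Y ^ a

/-- (SA) the sum over all ideals. -/
def T_SA : Prop :=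
  ∀ (K : Type) [Field K] [NumberField K] (E : ℂ → ℂ), IsE K E →
    ∃ C B : ℝ, 0 < C ∧ 0 ≤ B ∧ ∀ (s₁ s₂ ω : ℂ) (Y : ℝ), |s₁.re - 1 / 2| ≤ 1 / 16 →
      |s₂.re - 1 / 2| ≤ 1 / 16 → s₁ + s₂ = 1 + ω → ω ≠ 0 → ‖ω‖ ≤ 1 / 8 → 0 < Y →
      ‖Sg (K := K) ⊤ s₁ s₂ Y - 1 / ω * (E (1 + ω) -
          (rho K : ℂ) * Gq s₁ s₂ (-(ω / 2)) * cexp (ω ^ 2 / 2) * (Y : ℂ) ^ (-(ω / 2)))‖ ≤
        C * (1 + |s₁.im| + |s₂.im|) ^ B * Y ^ (-(1 / 8) : ℝ) / ‖ω‖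

/-- (SC) the sum over the ideals prime to `q`. -/
def T_SC : Prop :=
  ∀ (K : Type) [Field K] [NumberField K], ∃ C B : ℝ, 0 < C ∧ 0 ≤ B ∧
    ∀ (q : ℕ) (s₁ s₂ : ℂ) (Y : ℝ), q.Prime → |s₁.re - 1 / 2| ≤ 1 / 16 →
      |s₂.re - 1 / 2| ≤ 1 / 16 → 0 < Y →
      ‖Sg (qi K q) s₁ s₂ Y - Sg (K := K) ⊤ s₁ s₂ Y‖ ≤
        C * (1 + |s₁.im| + |s₂.im|) ^ B * Y ^ (1 / 4 : ℝ) * (q : ℝ) ^ (-(11 / 8) : ℝ)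

/-! ### The relations -/

/-- (OP) the second moment opened. -/
def T_OP : Prop :=
  ∀ (K : Type) [Field K] [NumberField K] [IsTotallyComplex K] (m d : Ideal (𝓞 K)) (Q M : ℝ)
    (s₁ s₂ : ℂ) (c₁ c₂ : Finset (PrI K) → ℂ), m ≠ ⊥ → m ≤ d → 0 < Q → 1 ≤ M →
    (∀ P : PrI K, m ≤ P.1 → M < np P) → 3 / 8 ≤ s₁.re → s₁.re ≤ 5 / 8 → 3 / 8 ≤ s₂.re →
    s₂.re ≤ 5 / 8 →
    Summable (fun p : CP m d => ‖Dg m Q M s₁ s₂ c₁ c₂ p.1.1 p.1.2‖) ∧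
    ∑ᶠ ψ ∈ Ch m d, A2g Q s₁ s₂ ψ * (pol M c₁ ψ *
        pol M c₂ (fun I => (starRingEnd ℂ) (ψ I))) =
      nc m d * ∑' p : CP m d, Dg m Q M s₁ s₂ c₁ c₂ p.1.1 p.1.2

/-- (DT) the trivial bound of `Dg`. -/
def T_DT : Prop :=
  ∀ (K : Type) [Field K] [NumberField K] (δ : ℝ) (A : ℕ), 0 < δ → δ ≤ 1 / 8 →
    ∃ C B : ℝ, 0 < C ∧ 0 ≤ B ∧
    ∀ (m : Ideal (𝓞 K)) (Q M : ℝ) (s₁ s₂ : ℂ) (c₁ c₂ : Finset (PrI K) → ℂ) (I J : Ideal (𝓞 K)),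
      1 ≤ Q → 1 ≤ M → |s₁.re - 1 / 2| ≤ δ → |s₂.re - 1 / 2| ≤ δ →
      (∀ S, ‖c₁ S‖ ≤ nS np S ^ (-(1 / 2) : ℝ)) → (∀ S, ‖c₂ S‖ ≤ nS np S ^ (-(1 / 2) : ℝ)) →
      I ≠ ⊥ → J ≠ ⊥ → I ⊔ J = ⊤ →
      ‖Dg m Q M s₁ s₂ c₁ c₂ I J‖ ≤ C * (1 + |s₁.im| + |s₂.im|) ^ B *
        (nm I * nm J) ^ (-(1 / 2) : ℝ) * 2 ^ ((pf I).card + (pf J).card) *
          (Q * M ^ 2) ^ (8 * δ) * min 1 ((Q * M ^ 2 / (nm I * nm J)) ^ A)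

/-- (DL) the long relations. -/
def T_DL : Prop :=
  ∀ (K : Type) [Field K] [NumberField K] [IsCMField K], Module.finrank ℚ K = 2 →
    ∀ ε₁ : ℝ, 0 < ε₁ → ε₁ < 1 / 2 → ∃ δ B : ℝ, 0 < δ ∧ δ ≤ 1 / 8 ∧ 0 ≤ B ∧
    ∀ η c : ℝ, 0 < η → 0 < c → ∃ q₀ : ℕ, ∀ q : ℕ, q.Prime → q₀ ≤ q →
      ∀ (d : Ideal (𝓞 K)) (s₁ s₂ : ℂ) (c₁ c₂ : Finset (PrI K) → ℂ), qi K q ≤ d →
      |s₁.re - 1 / 2| ≤ δ → |s₂.re - 1 / 2| ≤ δ →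
      (∀ S, ‖c₁ S‖ ≤ nS np S ^ (-(1 / 2) : ℝ)) → (∀ S, ‖c₂ S‖ ≤ nS np S ^ (-(1 / 2) : ℝ)) →
      ∀ X : Finset (Ideal (𝓞 K) × Ideal (𝓞 K)),
      (∀ p ∈ X, p ∈ CP (qi K q) d ∧ c * nm d ^ 2 ≤ nm p.1 * nm p.2 * (q : ℝ) ^ 2) →
      (nc (qi K q) d : ℝ) *
        ∑ p ∈ X, ‖Dg (qi K q) (cA K (qi K q) ^ 2) (Mq ε₁ q) s₁ s₂ c₁ c₂ p.1 p.2‖ ≤
          η * (1 + |s₁.im| + |s₂.im|) ^ B * nc (qi K q) (qi K q)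

/-- (DS) all relations which come from ideals of `ℚ`, for proper divisors. -/
def T_DS : Prop :=
  ∀ (K : Type) [Field K] [NumberField K] [IsCMField K], Module.finrank ℚ K = 2 →
    ∃ δ C B : ℝ, 0 < δ ∧ δ ≤ 1 / 8 ∧ 0 < C ∧ 0 ≤ B ∧ ∃ q₀ : ℕ,
    ∀ (ε₁ : ℝ) (q : ℕ), 0 < ε₁ → ε₁ < 1 / 2 → q.Prime → q₀ ≤ q →
      ∀ (s₁ s₂ : ℂ) (c₁ c₂ : Finset (PrI K) → ℂ), |s₁.re - 1 / 2| ≤ δ → |s₂.re - 1 / 2| ≤ δ →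
      (∀ S, ‖c₁ S‖ ≤ nS np S ^ (-(1 / 2) : ℝ)) → (∀ S, ‖c₂ S‖ ≤ nS np S ^ (-(1 / 2) : ℝ)) →
      ∀ X : Finset (Ideal (𝓞 K) × Ideal (𝓞 K)),
      (∀ p ∈ X, p.1 ⊔ p.2 = ⊤ ∧ ∃ y₁ y₂ : Ideal (𝓞 (Kp K)), Real2 p y₁ y₂) →
      ∑ p ∈ X, ‖Dg (qi K q) (cA K (qi K q) ^ 2) (Mq ε₁ q) s₁ s₂ c₁ c₂ p.1 p.2‖ ≤
        C * (1 + |s₁.im| + |s₂.im|) ^ B * (q : ℝ) ^ (1 / 4 : ℝ)

/-- (SS) there are no short relations. -/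
def T_SS : Prop :=
  ∀ (K : Type) [Field K] [NumberField K] [IsCMField K], Module.finrank ℚ K = 2 →
    ∃ (c : ℝ) (q₀ : ℕ), 0 < c ∧ ∀ q : ℕ, q.Prime → q₀ ≤ q →
      (∀ p ∈ CP (qi K q) (qi K q),
        nm p.1 * nm p.2 * (q : ℝ) ^ 2 < c * nm (qi K q) ^ 2 → p = (⊤, ⊤)) ∧
      ∀ d : Ideal (𝓞 K), qi K q ≤ d → ∀ p ∈ CP (qi K q) d,
        nm p.1 * nm p.2 * (q : ℝ) ^ 2 < c * nm d ^ 2 →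
          ∃ y₁ y₂ : Ideal (𝓞 (Kp K)), Real2 p y₁ y₂

/-- (SE) the second moment of the primitive characters. -/
def T_SE : Prop :=
  ∀ (K : Type) [Field K] [NumberField K] [IsCMField K], Module.finrank ℚ K = 2 →
    ∀ ε₁ : ℝ, 0 < ε₁ → ε₁ < 1 / 2 → ∃ δ B : ℝ, 0 < δ ∧ δ ≤ 1 / 8 ∧ 0 ≤ B ∧
    ∀ η : ℝ, 0 < η → ∃ q₀ : ℕ, ∀ q : ℕ, q.Prime → q₀ ≤ q →
      ∀ (s₁ s₂ : ℂ) (c₁ c₂ : Finset (PrI K) → ℂ), |s₁.re - 1 / 2| ≤ δ → |s₂.re - 1 / 2| ≤ δ →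
      (∀ S, ‖c₁ S‖ ≤ nS np S ^ (-(1 / 2) : ℝ)) → (∀ S, ‖c₂ S‖ ≤ nS np S ^ (-(1 / 2) : ℝ)) →
      ‖(∑ᶠ χ ∈ Pr K (qi K q), A2g (cA K (qi K q) ^ 2) s₁ s₂ χ.ψ * (pol (Mq ε₁ q) c₁ χ.ψ *
          pol (Mq ε₁ q) c₂ (fun I => (starRingEnd ℂ) (χ.ψ I)))) -
        nc (qi K q) (qi K q) *
          Dg (qi K q) (cA K (qi K q) ^ 2) (Mq ε₁ q) s₁ s₂ c₁ c₂ ⊤ ⊤‖ ≤
        η * (1 + |s₁.im| + |s₂.im|) ^ B * nc (qi K q) (qi K q)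

/-! ### The diagonal -/

/-- (DI) the diagonal term. -/
def T_DI : Prop :=
  ∀ (K : Type) [Field K] [NumberField K] [IsCMField K], Module.finrank ℚ K = 2 →
    ∀ (E : ℂ → ℂ) (ε₁ c C₀ : ℝ), IsE K E → 0 < ε₁ → ε₁ < 1 / 2 → 0 < c → 0 < C₀ →
    ∃ B : ℝ, 0 ≤ B ∧ ∀ η : ℝ, 0 < η → ∃ q₀ : ℕ, ∀ q : ℕ, q.Prime → q₀ ≤ q →
      ∀ (α β : ℂ) (u : ℝ), ‖α‖ ≤ C₀ / Real.log q → ‖β‖ ≤ C₀ / Real.log q →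
      c / Real.log q ≤ ‖α + β‖ →
      ‖Dg (qi K q) (cA K (qi K q) ^ 2) (Mq ε₁ q) (1 / 2 + α + u * I) (1 / 2 + β - u * I)
            (cu K (Mq ε₁ q) u) (cu K (Mq ε₁ q) (-u)) ⊤ ⊤ +
          Xf (cA K (qi K q)) (1 / 2 + α + u * I) (1 / 2 + β - u * I) *
            Dg (qi K q) (cA K (qi K q) ^ 2) (Mq ε₁ q) (1 - (1 / 2 + β - u * I))
              (1 - (1 / 2 + α + u * I)) (cu K (Mq ε₁ q) u) (cu K (Mq ε₁ q) (-u)) ⊤ ⊤ -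
          (1 / (α + β) * E (1 + (α + β)) * Sd K (Mq ε₁ q) α β -
            Xf (cA K (qi K q)) (1 / 2 + α + u * I) (1 / 2 + β - u * I) *
              (1 / (α + β) * E (1 - (α + β)) * Sd K (Mq ε₁ q) (-β) (-α)))‖ ≤
        η * (1 + |u|) ^ B

/-- (SD) the quadratic form with shifts. -/
def T_SD : Prop :=
  ∀ (K : Type) [Field K] [NumberField K] (C₀ η : ℝ), 0 < C₀ → 0 < η → ∃ M₀ : ℝ, 2 ≤ M₀ ∧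
    ∀ (M : ℝ) (α β : ℂ), M₀ ≤ M → ‖α‖ ≤ C₀ / Real.log M → ‖β‖ ≤ C₀ / Real.log M →
      ‖((rho K * Real.log M ^ 2 : ℝ) : ℂ) * Sd K M α β - FF α β (Real.log M)‖ ≤
        η * Real.log M

/-- (BM) the main term. -/
def T_BM : Prop :=
  ∀ (K : Type) [Field K] [NumberField K] [IsCMField K], Module.finrank ℚ K = 2 →
    ∀ (E : ℂ → ℂ) (ε₁ c C₀ : ℝ), IsE K E → 0 < ε₁ → ε₁ < 1 / 2 → 0 < c → 0 < C₀ →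
    ∃ B : ℝ, 0 ≤ B ∧ ∀ η : ℝ, 0 < η → ∃ q₀ : ℕ, ∀ q : ℕ, q.Prime → q₀ ≤ q →
      ∀ (α β : ℂ) (u : ℝ), ‖α‖ ≤ C₀ / Real.log q → ‖β‖ ≤ C₀ / Real.log q →
      c / Real.log q ≤ ‖α + β‖ →
      ‖1 / (α + β) * E (1 + (α + β)) * Sd K (Mq ε₁ q) α β -
            Xf (cA K (qi K q)) (1 / 2 + α + u * I) (1 / 2 + β - u * I) *
              (1 / (α + β) * E (1 - (α + β)) * Sd K (Mq ε₁ q) (-β) (-α)) -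
          Bm α β (Lq K q) (Real.log (Mq ε₁ q))‖ ≤ η * (1 + |u|) ^ B

/-- (B) the mollified second moment with shifts. -/
def T_B : Prop :=
  ∀ (K : Type) [Field K] [NumberField K] [IsCMField K], Module.finrank ℚ K = 2 →
    ∀ ε₁ c C₀ : ℝ, 0 < ε₁ → ε₁ < 1 / 2 → 0 < c → 0 < C₀ →
    ∃ B : ℝ, 0 ≤ B ∧ ∀ η : ℝ, 0 < η → ∃ q₀ : ℕ, ∀ q : ℕ, q.Prime → q₀ ≤ q →
      ∀ (α β : ℂ) (u : ℝ), ‖α‖ ≤ C₀ / Real.log q → ‖β‖ ≤ C₀ / Real.log q →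
      c / Real.log q ≤ ‖α + β‖ →
      ‖(∑ᶠ χ ∈ Pr K (qi K q), Zx χ (1 / 2 + α + u * I) *
            (starRingEnd ℂ) (Zx χ (1 / 2 + (starRingEnd ℂ) β + u * I)) *
              ((‖pol (Mq ε₁ q) (cu K (Mq ε₁ q) u) χ.ψ‖ ^ 2 : ℝ) : ℂ)) -
          nc (qi K q) (qi K q) * Bm α β (Lq K q) (Real.log (Mq ε₁ q))‖ ≤
        η * (1 + |u|) ^ B * nc (qi K q) (qi K q)

/-! ### Selberg's weights -/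

open scoped Classical in
/-- (S1) the sums of the weights over the sets which contain `D`. -/
def T_S1 : Prop :=
  ∀ (α : Type) (N : α → ℝ) (A D : Finset α) (M : ℝ) (β : ℂ), (∀ P, 2 ≤ N P) → 1 ≤ M →
    D ∈ DS N A M →
    ∑ S ∈ (DS N A M).filter (fun S => D ⊆ S), (xS N A M S : ℂ) *
        ((nS N S : ℝ) : ℂ) ^ (-(1 + β)) =
      (-1) ^ D.card * ((nS N D : ℝ) : ℂ) ^ (-β) / ((fS N D * GS N A M : ℝ) : ℂ) *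
        Eb N A D (M / nS N D) β

open scoped Classical in
/-- (S2) the diagonal form. -/
def T_S2 : Prop :=
  ∀ (α : Type) (N : α → ℝ) (A : Finset α) (M : ℝ) (a b : ℂ), (∀ P, 2 ≤ N P) → 1 ≤ M →
    ∑ S ∈ DS N A M, ∑ T ∈ DS N A M, ((xS N A M S * xS N A M T : ℝ) : ℂ) *
      (((nS N S : ℝ) : ℂ) ^ (-(1 + b)) * ((nS N T : ℝ) : ℂ) ^ (-(1 + a)) *
        ((nS N (S ∩ T) : ℝ) : ℂ) ^ (1 + a + b)) =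
    (((GS N A M)⁻¹ ^ 2 : ℝ) : ℂ) * ∑ D ∈ DS N A M, hw N (a + b) D / ((fS N D : ℝ) : ℂ) *
      (Eb N A D (M / nS N D) a * Eb N A D (M / nS N D) b)

open scoped Classical in
/-- (EI) the convolution identity. -/
def T_EI : Prop :=
  ∀ (α : Type) (N : α → ℝ) (A : Finset α) (x : ℝ) (β : ℂ), (∀ P, 2 ≤ N P) →
    ∑ S ∈ DS N A x, ((nS N S : ℝ) : ℂ) ^ (-β) / ((fS N S : ℝ) : ℂ) * Eb N A S (x / nS N S) β =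
      (GS N A x : ℂ)

/-- (CH) Chebyshev's bound for the prime ideals. -/
def T_CH : Prop :=
  ∀ (K : Type) [Field K] [NumberField K], ∃ C : ℝ, 1 ≤ C ∧
    ∀ (z r : ℝ) (X : Finset (PrI K)), 1 ≤ z → 1 ≤ r → (∀ P ∈ X, z < np P ∧ np P ≤ z * r) →
      ∑ P ∈ X, Real.log (np P) / (np P - 1) ≤ C * (1 + Real.log r)

/-- (EB) bounds for `Eb`. -/
def T_EB : Prop :=
  ∀ (K : Type) [Field K] [NumberField K] (C₀ : ℝ), 0 < C₀ → ∃ C : ℝ, 1 ≤ C ∧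
    ∀ (M : ℝ) (β : ℂ), 2 ≤ M → ‖β‖ ≤ C₀ / Real.log M → ∀ x y : ℝ, x ≤ M → y ≤ x →
      (∀ R : Finset (PrI K), ‖Eb np (PM K M) R x β‖ ≤ C ∧
        ‖Eb np (PM K M) R x β - Eb np (PM K M) ∅ x β‖ ≤
          C * ‖β‖ * ∑ P ∈ R, Real.log (np P) / (np P - 1)) ∧
      (1 ≤ y → ‖Eb np (PM K M) ∅ x β - Eb np (PM K M) ∅ y β‖ ≤
        C * ‖β‖ * (1 + Real.log (x / y)))

/-- (GA) the asymptotic formula for `G`. -/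
def T_GA : Prop :=
  ∀ (K : Type) [Field K] [NumberField K] (η : ℝ), 0 < η → ∃ M₀ : ℝ, 2 ≤ M₀ ∧
    ∀ M x : ℝ, M₀ ≤ M → 1 ≤ x → x ≤ M →
      |GS np (PM K M) x - rho K * Real.log x| ≤ η * Real.log M

/-- (DE) solution of the discrete convolution equation. -/
def T_DE : Prop :=
  ∀ C₀ C : ℝ, 1 ≤ C₀ → 1 ≤ C → ∃ C' : ℝ, 1 ≤ C' ∧ ∀ (n : ℕ) (ξ : ℝ) (b : ℂ) (e : ℕ → ℂ), 1 ≤ n →
    0 ≤ ξ → ‖b‖ ≤ C₀ → (∀ j : ℕ, j ≤ n → ‖e j‖ ≤ C) →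
    (∀ i j : ℕ, i ≤ n → j ≤ n → ‖e i - e j‖ ≤ C * (|(i : ℝ) - j| / n + ξ)) →
    (∀ j : ℕ, j ≤ n → ‖(∑ i ∈ Finset.Icc 1 j, cexp (-b * (i : ℂ) / n) * e (j - i)) - j‖ ≤
      C * (1 + ξ * n)) →
    ∀ j : ℕ, j ≤ n → ‖e j - (1 + b * (j : ℂ) / n)‖ ≤
      C' * ((n : ℝ) ^ (-(1 / 2) : ℝ) + ξ * (n : ℝ) ^ (1 / 2 : ℝ))

/-- (EA) the asymptotic formula for `Eb`. -/
def T_EA : Prop :=
  ∀ (K : Type) [Field K] [NumberField K] (C₀ η : ℝ), 0 < C₀ → 0 < η → ∃ M₀ : ℝ, 2 ≤ M₀ ∧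
    ∀ (M : ℝ) (β : ℂ), M₀ ≤ M → ‖β‖ ≤ C₀ / Real.log M → ∀ x : ℝ, 1 ≤ x → x ≤ M →
      ‖Eb np (PM K M) ∅ x β - (1 + β * Real.log x)‖ ≤ η

/-- (MO) moments of the logarithms. -/
def T_MO : Prop :=
  ∀ (K : Type) [Field K] [NumberField K] (η : ℝ), 0 < η → ∃ M₀ : ℝ, 2 ≤ M₀ ∧
    ∀ (M : ℝ) (k : ℕ), M₀ ≤ M → k ≤ 2 →
      |(∑ D ∈ DM K M, Real.log (M / nS np D) ^ k / fS np D) -
        rho K * Real.log M ^ (k + 1) / (k + 1)| ≤ η * Real.log M ^ (k + 1)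

end Pool.Agent.H65.CRZ
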