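import Pool.Agent.H65.CRZ.Defs

/-!
# Zeros on the critical line of the L-functions of ray class characters of imaginary quadratic
fields: definitions, part 2
-/

set_option autoImplicit false

open NumberField NumberField.InfinitePlace Complex Filter Topology

namespace Pool.Agent.H65.CRZ

open Pool.Agent.H28.RC Pool.Agent.H25.HK Pool.Agent.H37.CV

/-! ### The weights -/

/-- the quotient of the Gamma factors -/
noncomputable def Gq (s₁ s₂ w : ℂ) : ℂ := Gamma (s₁ + w) * Gamma (s₂ + w) / (Gamma s₁ * Gamma s₂)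

/-- the weight of the approximate functional equation -/
noncomputable def Vg (s₁ s₂ : ℂ) (x : ℝ) : ℂ :=
  ((1 / (2 * Real.pi) : ℝ) : ℂ) * ∫ t : ℝ, Gq s₁ s₂ (2 + t * I) *
    (cexp (2 * (2 + t * I) ^ 2) / (2 + t * I)) * (x : ℂ) ^ (-(2 + t * I))

/-- the factor of the dual sum -/
noncomputable def Xf (A : ℝ) (s₁ s₂ : ℂ) : ℂ :=
  (A : ℂ) ^ (2 - 2 * (s₁ + s₂)) * (Gamma (1 - s₁) * Gamma (1 - s₂) / (Gamma s₁ * Gamma s₂))

section NF

variable {K : Type} [Field K] [NumberField K]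

/-- the sum of the approximate functional equation -/
noncomputable def A2g (Q : ℝ) (s₁ s₂ : ℂ) (ψ : Ideal (𝓞 K) → ℂ) : ℂ :=
  ∑' p : NI K × NI K, ψ p.1.1 * (starRingEnd ℂ) (ψ p.2.1) *
    (((nm p.1.1 : ℝ) : ℂ) ^ (-s₁) * ((nm p.2.1 : ℝ) : ℂ) ^ (-s₂)) *
      Vg s₁ s₂ (nm p.1.1 * nm p.2.1 / Q)

/-- the sum over the ideals prime to `m` -/
noncomputable def Sg (m : Ideal (𝓞 K)) (s₁ s₂ : ℂ) (Y : ℝ) : ℂ :=
  ∑' t : {t : Ideal (𝓞 K) // t ≠ ⊥ ∧ t ⊔ m = ⊤}, ((nm t.1 : ℝ) : ℂ) ^ (-(s₁ + s₂)) *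
    Vg s₁ s₂ (nm t.1 ^ 2 / Y)

/-- the contribution of the relation `(I, J)` -/
noncomputable def Dg (m : Ideal (𝓞 K)) (Q M : ℝ) (s₁ s₂ : ℂ) (c₁ c₂ : Finset (PrI K) → ℂ)
    (I J : Ideal (𝓞 K)) : ℂ :=
  ((nm I : ℝ) : ℂ) ^ (-s₁) * ((nm J : ℝ) : ℂ) ^ (-s₂) * ∑ S ∈ DM K M, ∑ T ∈ DM K M,
    c₁ S * c₂ T * (((nS np T / gg np (pf I) (pf J) S T : ℝ) : ℂ) ^ (-s₁) *
      ((nS np S / gg np (pf I) (pf J) S T : ℝ) : ℂ) ^ (-s₂)) *
      Sg m s₁ s₂ (Q * gg np (pf I) (pf J) S T ^ 2 / (nS np S * nS np T * (nm I * nm J)))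

/-- a Dirichlet polynomial -/
noncomputable def pol (M : ℝ) (c : Finset (PrI K) → ℂ) (ψ : Ideal (𝓞 K) → ℂ) : ℂ :=
  ∑ S ∈ DM K M, c S * ψ (idS S)

open scoped Classical in
/-- the entire continuation of the `L`-function -/
noncomputable def Zx (χ : RCC K) : ℂ → ℂ := if h : ∃ Z, IsEnt χ Z then h.choose else 0

/-- the mollifier as a function of `s` -/
noncomputable def ml (M σ₀ : ℝ) (ψ : Ideal (𝓞 K) → ℂ) (s : ℂ) : ℂ :=
  ∑ S ∈ DM K M, (xw K M S : ℂ) * ψ (idS S) * ((nS np S : ℝ) : ℂ) ^ (-(s + 1 / 2 - σ₀))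

/-- the coefficients of the mollifier at the height `u` -/
noncomputable def cu (K : Type) [Field K] [NumberField K] (M u : ℝ) (S : Finset (PrI K)) : ℂ :=
  (xw K M S : ℂ) * ((nS np S : ℝ) : ℂ) ^ (-(1 / 2 + u * I))

open scoped Classical in
/-- Selberg's quadratic form with shifts -/
noncomputable def Sd (K : Type) [Field K] [NumberField K] (M : ℝ) (α β : ℂ) : ℂ :=
  ∑ S ∈ DM K M, ∑ T ∈ DM K M, ((xw K M S * xw K M T : ℝ) : ℂ) *
    (((nS np S : ℝ) : ℂ) ^ (-(1 + β)) * ((nS np T : ℝ) : ℂ) ^ (-(1 + α)) *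
      ((nS np (S ∩ T) : ℝ) : ℂ) ^ (1 + α + β))

/-- the function `(s - 1) ζ_K(s)` -/
def IsE (K : Type) [Field K] [NumberField K] (E : ℂ → ℂ) : Prop :=
  Differentiable ℂ E ∧
    (∀ s : ℂ, 1 < s.re → Summable (fun I : NI K => ‖((nm I.1 : ℝ) : ℂ) ^ (-s)‖) ∧
      E s = (s - 1) * ∑' I : NI K, ((nm I.1 : ℝ) : ℂ) ^ (-s)) ∧ E 1 = (rho K : ℂ) ∧
    ∀ b : ℝ, ∃ C A : ℝ, ∀ s : ℂ, |s.re| ≤ b → ‖E s‖ ≤ C * (1 + |s.im|) ^ A

/-- the conductor parameter -/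
noncomputable def cA (K : Type) [Field K] [NumberField K] (m : Ideal (𝓞 K)) : ℝ :=
  Real.sqrt (cnd K m) / (2 * Real.pi)

/-- twice the logarithm of the conductor parameter of `q` -/
noncomputable def Lq (K : Type) [Field K] [NumberField K] (q : ℕ) : ℝ :=
  2 * Real.log (cA K (qi K q))

/-- the abscissa of the left side -/
noncomputable def sg0 (K : Type) [Field K] [NumberField K] (R : ℝ) (q : ℕ) : ℝ :=
  1 / 2 - R / Lq K q

/-- the length of the mollifier -/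
noncomputable def Mq (ε : ℝ) (q : ℕ) : ℝ := (q : ℝ) ^ (1 - 2 * ε)

/-- the mollified auxiliary function -/
noncomputable def fx {K : Type} [Field K] [NumberField K] (lam R ε : ℝ) (q : ℕ) (χ : RCC K)
    (s : ℂ) : ℂ :=
  VZ lam (cA K (qi K q)) (Zx χ) s * ml (Mq ε q) (sg0 K R q) χ.ψ s

end NF

/-! ### Finite sets with norms -/

section Comb

variable {α : Type} (N : α → ℝ)

/-- `∏ (1 - N(P)^{-β}) / (N(P) - 1)` -/
noncomputable def bP (β : ℂ) (S : Finset α) : ℂ :=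
  ∏ P ∈ S, (1 - ((N P : ℝ) : ℂ) ^ (-β)) / ((N P - 1 : ℝ) : ℂ)

open scoped Classical in
/-- the sum of `bP` over the sets of norm at most `x` disjoint from `R` -/
noncomputable def Eb (A R : Finset α) (x : ℝ) (β : ℂ) : ℂ :=
  ∑ S ∈ (DS N A x).filter (fun S => Disjoint S R), bP N β S

/-- `∏ (N(P) - N(P)^{-ω}) / (N(P) - 1)` -/
noncomputable def hw (ω : ℂ) (S : Finset α) : ℂ :=
  ∏ P ∈ S, (((N P : ℝ) : ℂ) - ((N P : ℝ) : ℂ) ^ (-ω)) / ((N P - 1 : ℝ) : ℂ)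

end Comb

end Pool.Agent.H65.CRZ
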