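import Pool.Agent.H37.CV.Targets

/-!
# Zeros on the critical line of the L-functions of ray class characters of imaginary quadratic
fields: definitions
-/

set_option autoImplicit false

open NumberField NumberField.InfinitePlace Complex Filter Topology

namespace Pool.Agent.H65.CRZ

open Pool.Agent.H28.RC Pool.Agent.H25.HK Pool.Agent.H37.CV

/-! ### Zeros -/

/-- the number of the zeros of `f` in `S`, with multiplicity -/
noncomputable def zc (f : ℂ → ℂ) (S : Set ℂ) : ℝ :=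
  ∑ᶠ ρ ∈ {ρ : ℂ | ρ ∈ S ∧ f ρ = 0}, (analyticOrderNatAt f ρ : ℝ)

/-- the points with `0 < Im s < T` -/
def St (T : ℝ) : Set ℂ := {s : ℂ | 0 < s.im ∧ s.im < T}

/-- the simple zeros on the critical line with `t₁ < Im s < t₂` -/
def SZ (f : ℂ → ℂ) (t₁ t₂ : ℝ) : Set ℂ :=
  {ρ : ℂ | f ρ = 0 ∧ deriv f ρ ≠ 0 ∧ ρ.re = 1 / 2 ∧ t₁ < ρ.im ∧ ρ.im < t₂}

/-- the logarithmic derivative -/
noncomputable def ld (f : ℂ → ℂ) (s : ℂ) : ℂ := deriv f s / f s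

/-- the imaginary part of the integral of the logarithmic derivative on the three sides
`a + i t₁ → b + i t₁ → b + i t₂ → a + i t₂` -/
noncomputable def rp (f : ℂ → ℂ) (a b t₁ t₂ : ℝ) : ℝ :=
  (∫ x in a..b, (ld f (x + t₁ * I)).im) + (∫ t in t₁..t₂, (ld f (b + t * I)).re) -
    ∫ x in a..b, (ld f (x + t₂ * I)).im

/-- the weight of a zero in Carleman's formula -/
noncomputable def sp (D x : ℝ) : ℝ := if 0 < x ∧ x < D then Real.sin (Real.pi * x / D) else 0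

/-! ### Levinson's auxiliary function -/

/-- `Z` is entire with a functional equation of degree two -/
structure LFn (C A : ℝ) (Z : ℂ → ℂ) : Prop where
  diff : Differentiable ℂ Z
  fe : ∃ (Λ : ℂ → ℂ) (ε : ℂ), Differentiable ℂ Λ ∧ ‖ε‖ = 1 ∧
    (∀ s : ℂ, (∀ n : ℕ, s ≠ -(n : ℂ)) → Λ s = (A : ℂ) ^ s * Gamma s * Z s) ∧
    ∀ s : ℂ, Λ s = ε * (starRingEnd ℂ) (Λ (1 - (starRingEnd ℂ) s))
  bd : ∀ s : ℂ, -1 ≤ s.re → ‖Z s‖ ≤ (A * (2 + |s.im|)) ^ C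
  one : ∀ s : ℂ, 3 / 2 ≤ s.re → ‖Z s - 1‖ ≤ C * (2 : ℝ) ^ (-s.re)

/-- the coefficient of the derivative -/
noncomputable def cof (lam A : ℝ) (s : ℂ) : ℂ :=
  1 / (((2 * Real.log A / lam : ℝ) : ℂ) + ld Gamma s)

/-- Levinson's function `Z + c Z'` -/
noncomputable def VZ (lam A : ℝ) (Z : ℂ → ℂ) (s : ℂ) : ℂ := Z s + cof lam A s * deriv Z s

/-! ### The main terms -/

/-- `∫₀^ℓ (1 + α v) (1 + β v) dv` -/
noncomputable def FF (α β : ℂ) (l : ℝ) : ℂ :=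
  (l : ℂ) + (α + β) * (l : ℂ) ^ 2 / 2 + α * β * (l : ℂ) ^ 3 / 3

/-- the main term of the mollified second moment, `l = log M`, `L = 2 log A` -/
noncomputable def Bm (α β : ℂ) (L l : ℝ) : ℂ :=
  1 / ((α + β) * (l : ℂ) ^ 2) * (FF α β l - cexp (-(α + β) * L) * FF (-α) (-β) l)

/-- the main term, normalised with `L = 1`, `l = x` -/
noncomputable def b0 (a b : ℂ) (x : ℝ) : ℂ := Bm a b 1 x

/-- Levinson's constant `c(R, λ, θ)` for `P(x) = x` -/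
noncomputable def cc (R lam x : ℝ) : ℝ :=
  let E := Real.exp (2 * R)
  let g := (E - 1) / (2 * R)
  let g1 := (E * (2 * R) - (E - 1)) / (2 * R) ^ 2
  let g2 := (E * (2 * R) ^ 2 - 2 * (E * (2 * R) - (E - 1))) / (2 * R) ^ 3
  1 / x * (g * (1 + x ^ 2 * R ^ 2 / 3) + x / 2 * (1 + E) +
    lam * (-2 * g1 * (1 + x ^ 2 * R ^ 2 / 3) - 2 * R * g * x ^ 2 / 3 - x * E) +
    lam ^ 2 * (g2 * (1 + x ^ 2 * R ^ 2 / 3) + 2 * R * g1 * x ^ 2 / 3 + g * x ^ 2 / 3 + x / 2 * E))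

end Pool.Agent.H65.CRZ
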