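import Pool.Agent.H65.CRZ.FM1
import Pool.Agent.H37.CV.SM

/-!
# Critical zeros: the assembly for the ray class characters
-/

set_option autoImplicit false

open NumberField NumberField.InfinitePlace Complex Filter Topology MeasureTheory Set

namespace Pool.Agent.H65.CRZ

open Pool.Agent.H28.RC Pool.Agent.H25.HK Pool.Agent.H37.CV

/-- the number of the zeros of the auxiliary functions -/
theorem car_app {K : Type} [Field K] [NumberField K] (hCM : T_CM) {b T D T' C₂ C₃ x₀ : ℝ} {q : ℕ}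
    (hb4 : 4 ≤ b) (hC₃ : 1 ≤ C₃) (hT : 0 < T) (hD : 0 < D)
    (hT' : T' = T + D + 1) (hL6 : 6 ≤ Lq K q) [Fintype (Pr K (qi K q))]
    (hx₀ : x₀ ≤ 2266 / 1000)
    (hFB : ∀ χ ∈ Pr K (qi K q), ∀ s : ℂ, 1 / 4 < s.re → s.re < 2 * b → |s.im| < T' →
        DifferentiableAt ℂ (fx (26 / 25) (5 / 4) (1 / 1000) q χ) s ∧
        (4 ≤ s.re → ‖fx (26 / 25) (5 / 4) (1 / 1000) q χ s‖ ≤ C₂) ∧
        (s.re = b → fx (26 / 25) (5 / 4) (1 / 1000) q χ s ≠ 0 ∧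
          |Real.log ‖fx (26 / 25) (5 / 4) (1 / 1000) q χ s‖| ≤ C₂ * (2 : ℝ) ^ (-b) ∧
          ‖deriv (fx (26 / 25) (5 / 4) (1 / 1000) q χ) s‖ ≤
            C₂ * (2 : ℝ) ^ (-b) * ‖fx (26 / 25) (5 / 4) (1 / 1000) q χ s‖))
    (hIN : ∀ x t : ℝ, sg0 K (5 / 4) q ≤ x → x ≤ b → |t| ≤ T' →
      ∑ᶠ χ ∈ Pr K (qi K q), ‖fx (26 / 25) (5 / 4) (1 / 1000) q χ (x + t * I)‖ ^ 2 ≤
        C₃ * (Pr K (qi K q)).ncard)
    (hLE : ∀ t : ℝ, |t| ≤ T' → ∑ᶠ χ ∈ Pr K (qi K q),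
      ‖fx (26 / 25) (5 / 4) (1 / 1000) q χ (sg0 K (5 / 4) q + t * I)‖ ^ 2 ≤
        (x₀ + 1 / 1000) * (Pr K (qi K q)).ncard) :
    (∀ χ ∈ Pr K (qi K q), {ρ : ℂ | 1 / 2 ≤ ρ.re ∧ ρ.re < b ∧ ρ ∈ St T ∧
      fx (26 / 25) (5 / 4) (1 / 1000) q χ ρ = 0}.Finite) ∧
    4 * D * (1 / 2 - sg0 K (5 / 4) q) * ∑ i : Pr K (qi K q),
      zc (fx (26 / 25) (5 / 4) (1 / 1000) q i.1) {ρ : ℂ | 1 / 2 ≤ ρ.re ∧ ρ.re < b ∧ ρ ∈ St T} ≤
      (T + D) * (D / Real.pi * Real.log (2267 / 1000) +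
      (b - sg0 K (5 / 4) q) * Real.sinh (Real.pi * (b - sg0 K (5 / 4) q) / D) * Real.log C₃ +
      (D + 2) * D * Real.cosh (Real.pi * (b - sg0 K (5 / 4) q) / D) * (C₂ * (2 : ℝ) ^ (-b))) *
        (Pr K (qi K q)).ncard := by
  have hcard : (Fintype.card (Pr K (qi K q)) : ℝ) = (Pr K (qi K q)).ncard := by
    rw [← Nat.card_coe_set_eq, Nat.card_eq_fintype_card]
  obtain ⟨a, ha⟩ : ∃ a : ℝ, a = sg0 K (5 / 4) q := ⟨_, rfl⟩
  have ha' : a = 1 / 2 - 5 / 4 / Lq K q := by rw [ha, sg0]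
  have hRL : 5 / 4 / Lq K q ≤ 5 / 24 := by
    rw [div_le_iff₀ (by linarith)]; linarith
  have hRL0 : 0 < 5 / 4 / Lq K q := div_pos (by norm_num) (by linarith)
  have ha1 : 1 / 4 < a := by rw [ha']; linarith
  have ha2 : a < 1 / 2 := by rw [ha']; linarith
  rw [← ha] at hIN hLE ⊢
  have hmem : ∀ s : ℂ, a ≤ s.re → s.re ≤ b → -D ≤ s.im → s.im ≤ T + D → s ∈ UU b T' :=
    fun s h1 h2 h3 h4 => mem_UU (by linarith) hD hT hT' (by linarith) h2 h3 h4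
  have hab : ∀ t ∈ Icc (-D) (T + D), |t| ≤ T' := by
    intro t ht
    rw [abs_le, hT']
    constructor <;> linarith [ht.1, ht.2]
  have c1 : ∀ i : Pr K (qi K q), ∀ s ∈ UU b T',
      DifferentiableAt ℂ (fx (26 / 25) (5 / 4) (1 / 1000) q i.1) s :=
    fun i s hs => (hFB i.1 i.2 s hs.1 hs.2.1 hs.2.2).1
  have c2 : ∀ i : Pr K (qi K q), ∀ t ∈ Icc (-D) (T + D),
      fx (26 / 25) (5 / 4) (1 / 1000) q i.1 (b + t * I) ≠ 0 ∧
      |Real.log ‖fx (26 / 25) (5 / 4) (1 / 1000) q i.1 (b + t * I)‖| ≤ C₂ * (2 : ℝ) ^ (-b) ∧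
      ‖deriv (fx (26 / 25) (5 / 4) (1 / 1000) q i.1) (b + t * I)‖ ≤
        C₂ * (2 : ℝ) ^ (-b) * ‖fx (26 / 25) (5 / 4) (1 / 1000) q i.1 (b + t * I)‖ := by
    intro i t ht
    have e1 : ((b : ℂ) + t * I).re = b := by simp
    have e2 : ((b : ℂ) + t * I).im = t := by simp
    have hs := hmem ((b : ℂ) + t * I) (by rw [e1]; linarith) (by rw [e1]) (by rw [e2]; exact ht.1)
      (by rw [e2]; exact ht.2)
    exact (hFB i.1 i.2 _ hs.1 hs.2.1 hs.2.2).2.2 e1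
  have c3 : ∀ t ∈ Icc (-D) (T + D), ∑ i : Pr K (qi K q),
      ‖fx (26 / 25) (5 / 4) (1 / 1000) q i.1 (a + t * I)‖ ^ 2 ≤
        2267 / 1000 * Fintype.card (Pr K (qi K q)) := by
    intro t ht
    have h1 := hLE t (hab t ht)
    rw [fsum_coe] at h1
    rw [hcard]
    refine h1.trans ?_
    refine mul_le_mul_of_nonneg_right ?_ (Nat.cast_nonneg _)
    linarith
  have c4 : ∀ t ∈ Icc (-D) (T + D), ∀ x ∈ Icc a b, ∑ i : Pr K (qi K q),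
      ‖fx (26 / 25) (5 / 4) (1 / 1000) q i.1 (x + t * I)‖ ^ 2 ≤
        C₃ * Fintype.card (Pr K (qi K q)) := by
    intro t ht x hx
    have h1 := hIN x t hx.1 hx.2 (hab t ht)
    rw [fsum_coe] at h1
    rw [hcard]
    exact h1
  obtain ⟨k1, k2⟩ := hCM (Pr K (qi K q)) (fun i => fx (26 / 25) (5 / 4) (1 / 1000) q i.1) a (1 / 2)
    b T D (C₂ * (2 : ℝ) ^ (-b)) (2267 / 1000) C₃ (UU b T') ha2 (by linarith) hT hD (by norm_num)
    hC₃ (UU_open b T') (UU_conn b T') c1 hmem c2 c3 c4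
  rw [hcard] at k2
  exact ⟨fun χ hχ => k1 ⟨χ, hχ⟩, k2⟩

theorem pf_FM (hLV : T_LV) (hCM : T_CM) (hRV : T_RV) (hLF : T_LF) (hFB : T_FB) (hIN : T_IN)
    (hLE : T_LE) (hCQ : T_CQ) (hCN : T_CN) (hZM : T_ZM) (hV0 : T_V0)
    (hIE : Pool.Agent.H37.CV.T_IE) (hPNC : Pool.Agent.H37.CA.T_PNC)
    (hOR : Pool.Agent.H37.CV.T_OR) : T_FM := by
  intro K _ _ _ hK ε₀ hε₀
  have hpi := Real.pi_pos
  obtain ⟨hcn1, hcn2, hcn3⟩ := hCN
  obtain ⟨ε, hεdef⟩ : ∃ ε : ℝ, ε = min ε₀ (1 / 10) := ⟨_, rfl⟩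
  have hε : 0 < ε := by rw [hεdef]; exact lt_min hε₀ (by norm_num)
  have hε1 : ε ≤ 1 / 10 := by rw [hεdef]; exact min_le_right _ _
  have hεε : ε ≤ ε₀ := by rw [hεdef]; exact min_le_left _ _
  obtain ⟨C₁, q₁, hC₁, hLF⟩ := hLF K hK
  obtain ⟨C₂, b₂, hC₂, hb₂, hFB⟩ := hFB K hK (26 / 25) (5 / 4) (1 / 1000) (by norm_num)
    (by norm_num) (by norm_num) (by norm_num) (by norm_num)
  obtain ⟨C₃, b₃, hC₃, hb₃, hIN⟩ := hIN K hK (26 / 25) (5 / 4) (1 / 1000) (by norm_num)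
    (by norm_num) (by norm_num) (by norm_num) (by norm_num)
  obtain ⟨hr2, c, hc, hcq⟩ := hCQ K hK
  obtain ⟨b₁, hb₁, hb₁'⟩ := choose_b C₁
  obtain ⟨C₄, hC₄, hLV⟩ := hLV C₁ (26 / 25) b₁ hC₁ (by norm_num) (by norm_num) hb₁ hb₁'
  obtain ⟨C₅, hC₅, hRV⟩ := hRV C₁ b₁ hC₁ hb₁ hb₁'
  obtain ⟨bs, hbs⟩ : ∃ bs : ℝ, bs = max (max b₂ b₃) (b₁ + 1) := ⟨_, rfl⟩
  have hbs2 : b₂ ≤ bs := by rw [hbs]; exact (le_max_left _ _).trans (le_max_left _ _)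
  have hbs3 : b₃ ≤ bs := by rw [hbs]; exact (le_max_right _ _).trans (le_max_left _ _)
  have hbs1 : b₁ + 1 ≤ bs := by rw [hbs]; exact le_max_right _ _
  obtain ⟨T₁, hT₁, hPh⟩ := Ph_bound bs C₂ (Real.log (2267 / 1000)) (Real.log C₃)
    (ε / (8 * Real.pi)) (div_pos hε (by linarith))
  refine ⟨max T₁ (max (8 * Real.pi * C₄ / ε) (4 * Real.pi * C₅ / ε)),
    lt_of_lt_of_le (by linarith : (0 : ℝ) < T₁) (le_max_left _ _), fun T hT => ?_⟩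
  have hTT₁ : T₁ ≤ T := (le_max_left _ _).trans hT
  have hT1 : 1 ≤ T := hT₁.trans hTT₁
  have hT0 : 0 < T := by linarith
  have hTC₄ : 8 * Real.pi * C₄ ≤ ε * T := by
    have h := ((le_max_left _ _).trans (le_max_right _ _)).trans hT
    rw [div_le_iff₀ hε] at h
    linarith
  have hTC₅ : 4 * Real.pi * C₅ ≤ ε * T := by
    have h := ((le_max_right _ _).trans (le_max_right _ _)).trans hT
    rw [div_le_iff₀ hε] at h
    linarith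
  have hPhT := hPh T hTT₁
  obtain ⟨D, hD⟩ : ∃ D : ℝ, D = Real.sqrt T := ⟨_, rfl⟩
  have hD1 : 1 ≤ D := by rw [hD]; exact Real.one_le_sqrt.2 hT1
  have hD0 : 0 < D := by linarith
  obtain ⟨b, hb⟩ : ∃ b : ℝ, b = bT bs T := ⟨_, rfl⟩
  have hbbs : bs ≤ b := by
    rw [hb]
    unfold bT
    have h1 : 0 ≤ Real.log T / Real.log 2 :=
      div_nonneg (Real.log_nonneg hT1) (Real.log_pos (by norm_num)).le
    linarith
  obtain ⟨T', hT'⟩ : ∃ T' : ℝ, T' = T + D + 1 := ⟨_, rfl⟩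
  have hT'0 : 0 < T' := by rw [hT']; linarith
  have hbC : C₁ * (2 : ℝ) ^ (-b) ≤ 1 / 100 := by
    refine le_trans ?_ hb₁'
    refine mul_le_mul_of_nonneg_left ?_ (by linarith)
    exact Real.rpow_le_rpow_of_exponent_le (by norm_num) (by linarith)
  obtain ⟨A₀, hA₀, hLV⟩ := hLV T hT0
  obtain ⟨A₁, hA₁, hRV⟩ := hRV T hT0
  obtain ⟨_, _, hV0⟩ := hV0 C₁ (26 / 25) b hC₁ (by norm_num) (by norm_num) (by linarith) hbC
  obtain ⟨A₂, hA₂, hV0⟩ := hV0 T' hT'0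
  obtain ⟨q₂, hFB⟩ := hFB b T' (by linarith) hT'0
  obtain ⟨q₃, hIN⟩ := hIN b T' (by linarith) hT'0
  obtain ⟨q₄, hLE⟩ := hLE K hK (26 / 25) (5 / 4) (1 / 1000) (1 / 1000) T' (by norm_num)
    (by norm_num) (by norm_num) (by norm_num) (by norm_num) (by norm_num) hT'0
  obtain ⟨q₅, hPNC⟩ := hPNC K (1 / 2) (by norm_num)
  obtain ⟨q₆, hq₆2, hlog⟩ := log_cq hc (ε / 4) (div_pos hε (by norm_num))
  obtain ⟨q₇, hq₇⟩ : ∃ q₇ : ℕ, ∀ q : ℕ, q₇ ≤ q →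
      max (max A₀ A₁) (max A₂ (Real.exp 3)) ≤ c * q := by
    have h1 : Tendsto (fun q : ℕ => c * (q : ℝ)) atTop atTop :=
      tendsto_natCast_atTop_atTop.const_mul_atTop hc
    exact eventually_atTop.1 (h1.eventually (eventually_ge_atTop _))
  refine ⟨max (max (max q₁ q₂) (max q₃ q₄)) (max q₅ (max q₆ q₇)), fun q hq hqq => ?_⟩
  have hqa : q₁ ≤ q := (((le_max_left _ _).trans (le_max_left _ _)).trans (le_max_left _ _)).trans hqq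
  have hqb : q₂ ≤ q := (((le_max_right _ _).trans (le_max_left _ _)).trans (le_max_left _ _)).trans hqq
  have hqc : q₃ ≤ q := (((le_max_left _ _).trans (le_max_right _ _)).trans (le_max_left _ _)).trans hqq
  have hqd : q₄ ≤ q := (((le_max_right _ _).trans (le_max_right _ _)).trans (le_max_left _ _)).trans hqq
  have hqe : q₅ ≤ q := ((le_max_left _ _).trans (le_max_right _ _)).trans hqq
  have hqf : q₆ ≤ q := (((le_max_left _ _).trans (le_max_right _ _)).trans (le_max_right _ _)).trans hqq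
  have hqg : q₇ ≤ q := (((le_max_right _ _).trans (le_max_right _ _)).trans (le_max_right _ _)).trans hqq
  replace hLF := hLF q hq hqa
  replace hFB := hFB q hq hqb
  replace hIN := hIN q hq hqc
  replace hLE := hLE q hq hqd
  have hPN := hPNC q hq hqe
  obtain ⟨hlog1, hlog2⟩ := hlog q hqf
  have hAq := hq₇ q hqg
  obtain ⟨hAeq, hnm⟩ := hcq q hq
  obtain ⟨A, hA⟩ : ∃ A : ℝ, A = cA K (qi K q) := ⟨_, rfl⟩
  rw [← hAeq, ← hA] at hAq hlog1 hlog2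
  rw [← hA] at hLF
  have hAA₀ : A₀ ≤ A := ((le_max_left _ _).trans (le_max_left _ _)).trans hAq
  have hAA₁ : A₁ ≤ A := ((le_max_right _ _).trans (le_max_left _ _)).trans hAq
  have hAA₂ : A₂ ≤ A := ((le_max_left _ _).trans (le_max_right _ _)).trans hAq
  have hAe : Real.exp 3 ≤ A := ((le_max_right _ _).trans (le_max_right _ _)).trans hAq
  have hA0 : 0 < A := (Real.exp_pos 3).trans_le hAe
  have hlA : 3 ≤ Real.log A := by rw [Real.le_log_iff_exp_le hA0]; exact hAe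
  have hL : Lq K q = 2 * Real.log A := by rw [Lq, hA]
  have hL6 : 6 ≤ Lq K q := by rw [hL]; linarith
  -- the family
  have hPf : (Pr K (qi K q)).Finite := (hIE K q hq).1
  haveI : Fintype (Pr K (qi K q)) := hPf.fintype
  have hm : qi K q ≠ ⊥ := qi_ne_bot K q hq
  have hnc : 0 < nc (qi K q) (qi K q) := (hOR K (qi K q) (qi K q) hm le_rfl).2.1
  have hcard : (Fintype.card (Pr K (qi K q)) : ℝ) = (Pr K (qi K q)).ncard := by
    rw [← Nat.card_coe_set_eq, Nat.card_eq_fintype_card]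
  have hn0 : (0 : ℝ) < ((Pr K (qi K q)).ncard : ℝ) := by
    refine lt_of_lt_of_le ?_ hPN
    have : (0 : ℝ) < (nc (qi K q) (qi K q) : ℝ) := by exact_mod_cast hnc
    linarith
  have hPpos : 0 < (Pr K (qi K q)).ncard := by exact_mod_cast hn0
  have hx₀ : cc (5 / 4) (26 / 25) ((1 - 2 * (1 / 1000)) / 2) ≤ 2266 / 1000 := by
    have h2 : ((1 - 2 * (1 / 1000 : ℝ)) / 2) = 499 / 1000 := by norm_num
    rw [h2]
    exact hcn2
  obtain ⟨hfin, hineq⟩ := car_app hCM (by linarith : 4 ≤ b) hC₃ hT0 hD0 hT' hL6 hx₀ hFB hIN hLE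
  obtain ⟨n, hn⟩ : ∃ n : ℝ, n = ((Pr K (qi K q)).ncard : ℝ) := ⟨_, rfl⟩
  rw [← hn] at hineq hn0 hcard
  obtain ⟨S, hS⟩ : ∃ S : ℝ, S = ∑ i : Pr K (qi K q), zc (fx (26 / 25) (5 / 4) (1 / 1000) q i.1)
    {ρ : ℂ | 1 / 2 ≤ ρ.re ∧ ρ.re < b ∧ ρ ∈ St T} := ⟨_, rfl⟩
  rw [← hS] at hineq
  obtain ⟨P, hP⟩ : ∃ P : ℝ, P = Ph bs C₂ (Real.log (2267 / 1000)) (Real.log C₃) T := ⟨_, rfl⟩
  have hP' : P = Real.log (2267 / 1000) / Real.pi + b / D * Real.sinh (Real.pi * (b / D)) *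
      Real.log C₃ + (D + 2) * Real.cosh (Real.pi * (b / D)) * (C₂ * (2 : ℝ) ^ (-b)) := by
    rw [hP, Ph, ← hb, ← hD]
  rw [← hP, ← hD] at hPhT
  have hsg : 1 / 2 - sg0 K (5 / 4) q = 5 / 4 / Lq K q := by rw [sg0]; ring
  have hRL : 5 / 4 / Lq K q ≤ 5 / 24 := by
    rw [div_le_iff₀ (by linarith)]; linarith
  have hRL0 : 0 < 5 / 4 / Lq K q := div_pos (by norm_num) (by linarith)
  have hSle := num_car hD0 (by linarith : 0 ≤ sg0 K (5 / 4) q) (by linarith : sg0 K (5 / 4) q ≤ b)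
    (by linarith : 0 ≤ C₂) hC₃ hT0 hn0 (by linarith : 0 < Lq K q) hsg hP' hineq
  have hSle2 : S ≤ 2 * Real.log A / 5 *
      (T * (Real.log (2267 / 1000) / Real.pi + ε / (8 * Real.pi))) * n := by
    refine hSle.trans ?_
    rw [hL]
    refine mul_le_mul_of_nonneg_right ?_ hn0.le
    exact mul_le_mul_of_nonneg_left hPhT (by linarith)
  -- the single functions
  have hone : ∀ i : Pr K (qi K q), (SZ (Zx i.1) 0 T).Finite ∧
      (T / Real.pi - C₄) * Real.log A -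
        2 * zc (fx (26 / 25) (5 / 4) (1 / 1000) q i.1)
          {ρ : ℂ | 1 / 2 ≤ ρ.re ∧ ρ.re < b ∧ ρ ∈ St T} ≤ ((SZ (Zx i.1) 0 T).ncard : ℝ) := by
    rintro ⟨χ, hχ⟩
    obtain ⟨h1, h2⟩ := hLV A hAA₀ (Zx χ) (hLF χ hχ).2
    refine ⟨h1, le_trans ?_ h2⟩
    have e1 : ((b : ℂ) + (0 : ℝ) * I).re = b := by simp
    have e2 : ((b : ℂ) + (0 : ℝ) * I).im = 0 := by simp
    have h3 := one_chi hZM hA (by linarith : 1 < b) (by linarith : b₁ ≤ b) hD0 hT0 hT' χ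
      (fun s h3 h4 h5 => (hV0 A hAA₂ (Zx χ) (hLF χ hχ).2 s h3 h4 h5).2.1)
      ((hFB χ hχ ((b : ℂ) + (0 : ℝ) * I) (by rw [e1]; linarith) (by rw [e1]; linarith)
        (by rw [e2, abs_zero]; exact hT'0)).2.2 e1).1 (hfin χ hχ)
    show (T / Real.pi - C₄) * Real.log A -
        2 * zc (fx (26 / 25) (5 / 4) (1 / 1000) q χ)
          {ρ : ℂ | 1 / 2 ≤ ρ.re ∧ ρ.re < b ∧ ρ ∈ St T} ≤ _
    linarith
  have hsum : n * ((T / Real.pi - C₄) * Real.log A) - 2 * S ≤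
      ∑ i : Pr K (qi K q), ((SZ (Zx i.1) 0 T).ncard : ℝ) := by
    have h1 := Finset.sum_le_sum fun (i : Pr K (qi K q)) (_ : i ∈ Finset.univ) => (hone i).2
    rw [Finset.sum_sub_distrib, Finset.sum_const, Finset.card_univ, ← Finset.mul_sum, ← hS,
      nsmul_eq_mul, hcard] at h1
    exact h1
  have hlq : 0 ≤ Real.log q := Real.log_nonneg (by exact_mod_cast hq.one_lt.le)
  refine ⟨hPf, hPpos, fun χ hχ => ?_, ?_⟩
  · obtain ⟨h1, h2⟩ := hRV A hAA₁ (Zx χ) (hLF χ hχ).2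
    exact ⟨(hLF χ hχ).1, h1, (hone ⟨χ, hχ⟩).1,
      num_all hT0 hε hε1 hεε (by linarith) hlq hTC₅ hlog2 h2⟩
  · rw [fsum_coe, ← hn]
    refine le_trans ?_ hsum
    exact num_simple hT0 hε hε1 hεε (by linarith) hlq hn0 hTC₄ hlog1 hcn3 hSle2

end Pool.Agent.H65.CRZ
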