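import Pool.Agent.H65.CRZ.TD
import Pool.Agent.H18.PZ.Fac

/-!
# Critical zeros: limits for the assembly
-/

set_option autoImplicit false

open Filter Topology

namespace Pool.Agent.H65.CRZ

/-- the height of the right side -/
noncomputable def bT (bs T : ℝ) : ℝ := bs + 2 * (Real.log T / Real.log 2)

theorem two_pow_bT (bs T : ℝ) (hT : 0 < T) :
    (2 : ℝ) ^ (-bT bs T) = 2 ^ (-bs) * (T ^ 2)⁻¹ := by
  have h2 : Real.log 2 ≠ 0 := (Real.log_pos (by norm_num)).ne'
  unfold bT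
  rw [neg_add, Real.rpow_add (by norm_num)]
  congr 1
  rw [Real.rpow_neg (by norm_num)]
  congr 1
  rw [Real.rpow_def_of_pos (by norm_num)]
  have : Real.log 2 * (2 * (Real.log T / Real.log 2)) = 2 * Real.log T := by field_simp
  rw [this, two_mul, Real.exp_add, Real.exp_log hT]
  ring

theorem bT_div (bs : ℝ) : Tendsto (fun T : ℝ => bT bs T / Real.sqrt T) atTop (𝓝 0) := by
  have h1 : Tendsto (fun T : ℝ => Real.sqrt T) atTop atTop := Real.tendsto_sqrt_atTop
  have h2 : Tendsto (fun T : ℝ => bs / Real.sqrt T) atTop (𝓝 0) :=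
    tendsto_const_nhds.div_atTop h1
  have h3 : Tendsto (fun T : ℝ => Real.log T / Real.sqrt T) atTop (𝓝 0) := by
    have := (isLittleO_log_rpow_atTop (r := 1 / 2) (by norm_num)).tendsto_div_nhds_zero
    simpa [Real.sqrt_eq_rpow] using this
  have h4 := h2.add ((h3.const_mul (2 / Real.log 2)))
  simp only [mul_zero, add_zero] at h4
  refine h4.congr fun T => ?_
  unfold bT
  ring

/-- the upper bound of the right side of Carleman's inequality -/
noncomputable def Ph (bs C₂ l₁ l₂ T : ℝ) : ℝ :=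
  l₁ / Real.pi + bT bs T / Real.sqrt T * Real.sinh (Real.pi * (bT bs T / Real.sqrt T)) * l₂ +
    (Real.sqrt T + 2) * Real.cosh (Real.pi * (bT bs T / Real.sqrt T)) *
      (C₂ * (2 : ℝ) ^ (-bT bs T))

theorem Ph_lim (bs C₂ l₁ l₂ : ℝ) :
    Tendsto (fun T => (1 + Real.sqrt T / T) * Ph bs C₂ l₁ l₂ T) atTop (𝓝 (l₁ / Real.pi)) := by
  have h0 := bT_div bs
  have hs : Tendsto (fun T : ℝ => Real.sqrt T) atTop atTop := Real.tendsto_sqrt_atTop
  have h1 : Tendsto (fun T : ℝ => Real.sqrt T / T) atTop (𝓝 0) := by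
    have h2 : Tendsto (fun T : ℝ => (Real.sqrt T)⁻¹) atTop (𝓝 0) := tendsto_inv_atTop_zero.comp hs
    refine h2.congr' ?_
    filter_upwards [eventually_gt_atTop 0] with T hT
    have h3 : Real.sqrt T ≠ 0 := (Real.sqrt_pos.2 hT).ne'
    have h4 : Real.sqrt T / T = Real.sqrt T / (Real.sqrt T * Real.sqrt T) := by
      rw [Real.mul_self_sqrt hT.le]
    rw [h4]
    field_simp
  have h2 : Tendsto (fun T : ℝ => Real.sinh (Real.pi * (bT bs T / Real.sqrt T))) atTop (𝓝 0) := by
    have := (Real.continuous_sinh.tendsto _).comp (h0.const_mul Real.pi)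
    simpa [Function.comp_def] using this
  have h3 : Tendsto (fun T : ℝ => Real.cosh (Real.pi * (bT bs T / Real.sqrt T))) atTop (𝓝 1) := by
    have := (Real.continuous_cosh.tendsto _).comp (h0.const_mul Real.pi)
    simpa [Function.comp_def] using this
  have h4 : Tendsto (fun T : ℝ => (Real.sqrt T + 2) * (T ^ 2)⁻¹) atTop (𝓝 0) := by
    have h5 : Tendsto (fun T : ℝ => T⁻¹) atTop (𝓝 0) := tendsto_inv_atTop_zero
    have h6 := (h1.mul h5).add ((h5.mul h5).const_mul 2)
    simp only [mul_zero, add_zero] at h6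
    refine h6.congr' ?_
    filter_upwards [eventually_gt_atTop 0] with T hT
    field_simp
  have h7 : Tendsto (fun T : ℝ => (Real.sqrt T + 2) *
      Real.cosh (Real.pi * (bT bs T / Real.sqrt T)) * (C₂ * (2 : ℝ) ^ (-bT bs T))) atTop (𝓝 0) := by
    have h8 := (h4.mul h3).const_mul (C₂ * 2 ^ (-bs))
    simp only [mul_one, mul_zero] at h8
    refine h8.congr' ?_
    filter_upwards [eventually_gt_atTop 0] with T hT
    rw [two_pow_bT bs T hT]
    ring
  have h9 : Tendsto (Ph bs C₂ l₁ l₂) atTop (𝓝 (l₁ / Real.pi)) := by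
    have := (tendsto_const_nhds (x := l₁ / Real.pi)).add ((h0.mul h2).mul_const l₂) |>.add h7
    simp only [mul_zero, zero_mul, add_zero] at this
    exact this
  have h10 := ((tendsto_const_nhds (x := (1 : ℝ))).add h1).mul h9
  simpa using h10

/-- the limit of the right side of Carleman's inequality -/
theorem Ph_bound (bs C₂ l₁ l₂ e : ℝ) (he : 0 < e) : ∃ T₀ : ℝ, 1 ≤ T₀ ∧ ∀ T : ℝ, T₀ ≤ T →
    (T + Real.sqrt T) * Ph bs C₂ l₁ l₂ T ≤ T * (l₁ / Real.pi + e) := by
  have h1 := (Ph_lim bs C₂ l₁ l₂).eventually (gt_mem_nhds (by linarith : l₁ / Real.pi <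
    l₁ / Real.pi + e))
  obtain ⟨T₀, h2⟩ := eventually_atTop.1 h1
  refine ⟨max T₀ 1, le_max_right _ _, fun T hT => ?_⟩
  have hT1 : 1 ≤ T := (le_max_right _ _).trans hT
  have hT0 : 0 < T := by linarith
  have h3 := (h2 T ((le_max_left _ _).trans hT)).le
  have h4 : (T + Real.sqrt T) = T * (1 + Real.sqrt T / T) := by field_simp
  rw [h4, mul_assoc]
  exact mul_le_mul_of_nonneg_left h3 hT0.le

/-- the logarithm of `c q` -/
theorem log_cq {c : ℝ} (hc : 0 < c) (e : ℝ) (he : 0 < e) : ∃ q₀ : ℕ, 2 ≤ q₀ ∧ ∀ q : ℕ, q₀ ≤ q →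
    (1 - e) * Real.log q ≤ Real.log (c * q) ∧ Real.log (c * q) ≤ (1 + e) * Real.log q := by
  have h1 : Tendsto (fun q : ℕ => Real.log (q : ℝ)) atTop atTop :=
    Real.tendsto_log_atTop.comp tendsto_natCast_atTop_atTop
  have h2 := h1.eventually (eventually_ge_atTop (|Real.log c| / e))
  obtain ⟨q₀, h3⟩ := eventually_atTop.1 h2
  refine ⟨max q₀ 2, le_max_right _ _, fun q hq => ?_⟩
  have h4 := h3 q ((le_max_left _ _).trans hq)
  have hq2 : 2 ≤ q := (le_max_right _ _).trans hq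
  have hq0 : (0 : ℝ) < q := by exact_mod_cast (by omega : 0 < q)
  rw [div_le_iff₀ he] at h4
  rw [Real.log_mul hc.ne' hq0.ne']
  have h5 := abs_le.1 (le_refl |Real.log c|)
  constructor <;> nlinarith [h5.1, h5.2]

end Pool.Agent.H65.CRZ
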