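import Pool.Agent.H65.CRZ.TL
import Pool.Agent.H65.CRZ.TN
import Pool.Agent.H37.CA.Targets2

/-!
# Zeros on the critical line: targets, part D (growth, mean squares, assembly)
-/

set_option autoImplicit false

open NumberField NumberField.InfinitePlace Complex Filter Topology MeasureTheory

namespace Pool.Agent.H65.CRZ

open Pool.Agent.H28.RC Pool.Agent.H25.HK Pool.Agent.H37.CV

/-! ### Growth -/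

/-- (H1) growth of the `L`-functions. -/
def T_H1 : Prop :=
  ∀ (K : Type) [Field K] [NumberField K] [IsTotallyComplex K], nrComplexPlaces K = 1 →
    ∃ C : ℝ, 1 ≤ C ∧ ∀ χ : RCC K, χ.f ≠ ⊤ → 1 ≤ cA K χ.f → ∀ Z : ℂ → ℂ, IsEnt χ Z →
      ∀ s : ℂ, -1 ≤ s.re → ‖Z s‖ ≤ (cA K χ.f * (2 + |s.im|)) ^ C

/-- (H2) the `L`-functions to the right of `1`. -/
def T_H2 : Prop :=
  ∀ (K : Type) [Field K] [NumberField K], ∃ C : ℝ, 1 ≤ C ∧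
    (∀ χ : RCC K, ∀ s : ℂ, 3 / 2 ≤ s.re →
      ‖Lc χ s‖ ≤ C ∧ ‖Lc χ s - 1‖ ≤ C * (2 : ℝ) ^ (-s.re)) ∧
    ∀ (M : ℝ) (χ : RCC K) (c : Finset (PrI K) → ℂ) (s : ℂ), 3 / 2 ≤ s.re → (∀ S, ‖c S‖ ≤ 1) →
      c ∅ = 1 → 1 ≤ M →
      ‖(∑ S ∈ DM K M, c S * χ.ψ (idS S) * ((nS np S : ℝ) : ℂ) ^ (-s)) - 1‖ ≤
        C * (2 : ℝ) ^ (-s.re)

/-- (LF) the `L`-functions have a functional equation of degree two. -/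
def T_LF : Prop :=
  ∀ (K : Type) [Field K] [NumberField K] [IsCMField K], Module.finrank ℚ K = 2 →
    ∃ (C : ℝ) (q₀ : ℕ), 1 ≤ C ∧ ∀ q : ℕ, q.Prime → q₀ ≤ q → ∀ χ ∈ Pr K (qi K q),
      IsEnt χ (Zx χ) ∧ LFn C (cA K (qi K q)) (Zx χ)

/-- (CQ) the parameters. -/
def T_CQ : Prop :=
  ∀ (K : Type) [Field K] [NumberField K] [IsCMField K], Module.finrank ℚ K = 2 →
    nrComplexPlaces K = 1 ∧ ∃ c : ℝ, 0 < c ∧ ∀ q : ℕ, q.Prime →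
      cA K (qi K q) = c * q ∧ nm (qi K q) = (q : ℝ) ^ 2

/-- (FB) the auxiliary function far to the right. -/
def T_FB : Prop :=
  ∀ (K : Type) [Field K] [NumberField K] [IsCMField K], Module.finrank ℚ K = 2 →
    ∀ lam R ε₁ : ℝ, 1 < lam → lam < 2 → 0 < R → 0 < ε₁ → ε₁ < 1 / 2 →
    ∃ C b₀ : ℝ, 1 ≤ C ∧ 4 ≤ b₀ ∧ ∀ b T : ℝ, b₀ ≤ b → 0 < T → ∃ q₀ : ℕ, ∀ q : ℕ, q.Prime →
      q₀ ≤ q → ∀ χ ∈ Pr K (qi K q), ∀ s : ℂ, 1 / 4 < s.re → s.re < 2 * b → |s.im| < T →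
        DifferentiableAt ℂ (fx lam R ε₁ q χ) s ∧ (4 ≤ s.re → ‖fx lam R ε₁ q χ s‖ ≤ C) ∧
        (s.re = b → fx lam R ε₁ q χ s ≠ 0 ∧
          |Real.log ‖fx lam R ε₁ q χ s‖| ≤ C * (2 : ℝ) ^ (-b) ∧
          ‖deriv (fx lam R ε₁ q χ) s‖ ≤ C * (2 : ℝ) ^ (-b) * ‖fx lam R ε₁ q χ s‖)

/-! ### Mean squares -/

/-- (BB) the main term is bounded. -/
def T_BB : Prop :=
  ∀ (R κ : ℝ), 0 < R → 0 < κ → κ ≤ 1 → ∃ C : ℝ, 0 < C ∧ ∀ (L l : ℝ) (a b : ℂ), 0 < L → κ * L ≤ l →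
    l ≤ L → ‖a + R‖ ≤ R / 2 → ‖b + R‖ ≤ R / 2 →
    Bm (a / L) (b / L) L l = b0 a b (l / L) ∧ ‖b0 a b (l / L)‖ ≤ C

/-- (MS) mean squares on the left line, with a shift. -/
def T_MS : Prop :=
  ∀ (K : Type) [Field K] [NumberField K] [IsCMField K], Module.finrank ℚ K = 2 →
    ∀ R ε₁ : ℝ, 0 < R → 0 < ε₁ → ε₁ < 1 / 2 → ∃ C B : ℝ, 0 < C ∧ 0 ≤ B ∧
    ∀ η : ℝ, 0 < η → ∃ q₀ : ℕ, ∀ q : ℕ, q.Prime → q₀ ≤ q → ∀ (a : ℂ) (u : ℝ),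
      ‖a‖ ≤ R / (2 * Lq K q) →
      ∑ᶠ χ ∈ Pr K (qi K q), ‖Zx χ (sg0 K R q + u * I + a) *
          ml (Mq ε₁ q) (sg0 K R q) χ.ψ (sg0 K R q + u * I)‖ ^ 2 ≤
        (C + η * (1 + |u|) ^ B) * nc (qi K q) (qi K q)

/-- (IN) mean squares of the auxiliary function. -/
def T_IN : Prop :=
  ∀ (K : Type) [Field K] [NumberField K] [IsCMField K], Module.finrank ℚ K = 2 →
    ∀ lam R ε₁ : ℝ, 1 < lam → lam < 2 → 0 < R → 0 < ε₁ → ε₁ < 1 / 2 → ∃ C b₀ : ℝ, 1 ≤ C ∧ 4 ≤ b₀ ∧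
    ∀ b T : ℝ, b₀ ≤ b → 0 < T → ∃ q₀ : ℕ, ∀ q : ℕ, q.Prime → q₀ ≤ q →
      ∀ x t : ℝ, sg0 K R q ≤ x → x ≤ b → |t| ≤ T →
      ∑ᶠ χ ∈ Pr K (qi K q), ‖fx lam R ε₁ q χ (x + t * I)‖ ^ 2 ≤
        C * (Pr K (qi K q)).ncard

/-- the coefficients of `cc` -/
noncomputable def k0 (R x : ℝ) : ℝ :=
  1 / x * ((Real.exp (2 * R) - 1) / (2 * R) * (1 + x ^ 2 * R ^ 2 / 3) +
    x / 2 * (1 + Real.exp (2 * R)))

/-- the coefficients of `cc` -/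
noncomputable def k1 (R x : ℝ) : ℝ :=
  1 / x * (-((Real.exp (2 * R) * (2 * R) - (Real.exp (2 * R) - 1)) / (2 * R) ^ 2) *
    (1 + x ^ 2 * R ^ 2 / 3) - R * ((Real.exp (2 * R) - 1) / (2 * R)) * x ^ 2 / 3 -
    x / 2 * Real.exp (2 * R))

/-- the coefficients of `cc` -/
noncomputable def k2 (R x : ℝ) : ℝ :=
  1 / x * ((Real.exp (2 * R) * (2 * R) ^ 2 - 2 * (Real.exp (2 * R) * (2 * R) -
    (Real.exp (2 * R) - 1))) / (2 * R) ^ 3 * (1 + x ^ 2 * R ^ 2 / 3) +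
    2 * R * ((Real.exp (2 * R) * (2 * R) - (Real.exp (2 * R) - 1)) / (2 * R) ^ 2) * x ^ 2 / 3 +
    (Real.exp (2 * R) - 1) / (2 * R) * x ^ 2 / 3 + x / 2 * Real.exp (2 * R))

/-- (DB) Cauchy's formula in two variables for the main term. -/
def T_DB : Prop :=
  ∀ (R x : ℝ) (l₁ l₂ : ℂ), 0 < R → 0 < x →
    Continuous (fun p : ℝ × ℝ => b0 (-R + R / 2 * cexp (p.1 * I)) (-R + R / 2 * cexp (-(p.2 * I))) x) ∧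
    1 / (2 * Real.pi : ℂ) ^ 2 * (∫ φ in (0 : ℝ)..(2 * Real.pi), ∫ ψ in (0 : ℝ)..(2 * Real.pi),
      b0 (-R + R / 2 * cexp (φ * I)) (-R + R / 2 * cexp (-(ψ * I))) x *
        ((1 + l₁ / (R / 2 * cexp (φ * I))) * (1 + l₂ / (R / 2 * cexp (-(ψ * I)))))) =
      k0 R x + (l₁ + l₂) * k1 R x + l₁ * l₂ * k2 R x

/-- (LE) the mean square on the left line. -/
def T_LE : Prop :=
  ∀ (K : Type) [Field K] [NumberField K] [IsCMField K], Module.finrank ℚ K = 2 →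
    ∀ lam R ε₁ δ T : ℝ, 1 < lam → lam < 2 → 0 < R → 0 < ε₁ → ε₁ < 1 / 2 → 0 < δ → 0 < T →
    ∃ q₀ : ℕ, ∀ q : ℕ, q.Prime → q₀ ≤ q → ∀ t : ℝ, |t| ≤ T →
      ∑ᶠ χ ∈ Pr K (qi K q), ‖fx lam R ε₁ q χ (sg0 K R q + t * I)‖ ^ 2 ≤
        (cc R lam ((1 - 2 * ε₁) / 2) + δ) * (Pr K (qi K q)).ncard

/-- (CN) the constant. -/
def T_CN : Prop :=
  1 ≤ cc (5 / 4) (26 / 25) (499 / 1000) ∧ cc (5 / 4) (26 / 25) (499 / 1000) ≤ 2266 / 1000 ∧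
    Real.log (2267 / 1000) ≤ 8187 / 10000

/-! ### The theorem -/

/-- (FM) the zeros of the `L`-functions of the ray class characters. -/
def T_FM : Prop :=
  ∀ (K : Type) [Field K] [NumberField K] [IsCMField K], Module.finrank ℚ K = 2 →
    ∀ ε : ℝ, 0 < ε → ∃ T₀ : ℝ, 0 < T₀ ∧ ∀ T : ℝ, T₀ ≤ T → ∃ q₀ : ℕ, ∀ q : ℕ, q.Prime → q₀ ≤ q →
      (Pr K (qi K q)).Finite ∧ 0 < (Pr K (qi K q)).ncard ∧
      (∀ χ ∈ Pr K (qi K q), IsEnt χ (Zx χ) ∧ {ρ : ℂ | ρ ∈ St T ∧ Zx χ ρ = 0}.Finite ∧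
        (SZ (Zx χ) 0 T).Finite ∧ zc (Zx χ) (St T) ≤ (1 + ε) * (T / Real.pi * Real.log q)) ∧
      (345 / 1000 - ε) * (T / Real.pi * Real.log q) * (Pr K (qi K q)).ncard ≤
        ∑ᶠ χ ∈ Pr K (qi K q), ((SZ (Zx χ) 0 T).ncard : ℝ)

/-- (FG) the zeros of the Artin `L`-functions. -/
def T_FG : Prop :=
  ∀ (F : Type) [Field F] [NumberField F] [IsCMField F] [IsGalois ℚ F], Module.finrank ℚ F = 2 →
    ∀ ε : ℝ, 0 < ε → ∃ T₀ : ℝ, 0 < T₀ ∧ ∀ T : ℝ, T₀ ≤ T → ∃ q₀ : ℕ, ∀ q : ℕ, q.Prime → q₀ ≤ q →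
      ∀ (L : Type) [Field L] [NumberField L] [Algebra F L] [IsGalois ℚ L],
      Pool.Agent.H37.CA.IsRCF F L (qi F q) →
      (Pool.Agent.H37.CA.Irr (L ≃ₐ[ℚ] L)).Finite ∧
      ∃ (U : Set ((L ≃ₐ[ℚ] L) → ℂ)) (Λ : ((L ≃ₐ[ℚ] L) → ℂ) → ℂ → ℂ),
        U ⊆ Pool.Agent.H37.CA.Irr (L ≃ₐ[ℚ] L) ∧
        (1 - ε) * (Pool.Agent.H37.CA.Irr (L ≃ₐ[ℚ] L)).ncard ≤ U.ncard ∧
        (∀ f ∈ U, f 1 = 2 ∧ Pool.Agent.H37.CA.nu f = 0 ∧ Differentiable ℂ (Λ f) ∧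
          (∀ (D : Pool.Agent.H37.CA.Frb L) (V : Type) [AddCommGroup V] [Module ℂ V]
            [FiniteDimensional ℂ V] (ρ : Representation ℂ (L ≃ₐ[ℚ] L) V), f = ρ.character →
            ∀ s : ℂ, 1 < s.re → HasProd (fun p => (D.rep V ρ).euler p s) (Λ f s)) ∧
          {ρ : ℂ | ρ ∈ St T ∧ Λ f ρ = 0}.Finite ∧
          zc (Λ f) (St T) ≤ (1 + ε) * (T / Real.pi * Real.log q)) ∧
        (345 / 1000 - ε) * (T / Real.pi * Real.log q) * U.ncard ≤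
          ∑ᶠ f ∈ U, ((SZ (Λ f) 0 T).ncard : ℝ)

end Pool.Agent.H65.CRZ
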